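import Pool.Agent.Q120.SI.Low

/-!
# Project SI: assembly, constructions
-/

set_option autoImplicit false

namespace Pool.Agent.Q120.SI

open Finset MeasureTheory Filter Pool.Agent.Q120.ET Pool.Agent.Q120.GM Pool.Agent.Q120.GE Pool.Agent.Q120.RZ Pool.Agent.Q120.SP
  Pool.Agent.Q120.LG
open scoped Topology

theorem choose_P (J : Jobs) (I : ℕ → Finset ℕ) (hI : ∀ k, 2 ≤ k → I k ⊆ block k) (s : ℕ → ℝ) (hs0 : ∀ k, 0 ≤ s k)
    (hs1 : ∀ k, s k ≤ 1) : ∃ P : ℕ → Finset ℕ → ℝ, ∀ k, 2 ≤ k → (∀ T ∈ (block k).powerset, 0 ≤ P k T) ∧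
      ∑ T ∈ (block k).powerset, P k T = 1 ∧
      ∑ T ∈ (block k).powerset, P k T * Real.log (P k T / cramerOn (block k) T) ≤ 12 * (s k ^ 2 * ∑ n ∈ I k, pc n) ∧
      (∑ T ∈ (block k).powerset with (1 - s k / 2) * ∑ n ∈ I k, pc n < ((I k ∩ T).card : ℝ), P k T) ≤
        2 * Real.exp (-(s k ^ 2 * (∑ n ∈ I k, pc n) / 24)) ∧
      (s k = 1 → ∀ T ∈ (block k).powerset, P k T ≠ 0 → Disjoint T (I k)) := by
  classical
  have h1 := fun k (hk : 2 ≤ k) => J.tlt J.tail J.kl k hk (I k) (hI k hk) (s k) (hs0 k) (hs1 k)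
  choose P hP using h1
  refine ⟨fun k T => if hk : 2 ≤ k then P k hk T else 0, fun k hk => ?_⟩
  simp only [dif_pos hk]
  obtain ⟨h2, h3, h4, h5, -, h6⟩ := hP k hk
  exact ⟨h2, h3, h4, h5, h6⟩

theorem inter_tr_card {Ω : Type*} [MeasurableSpace Ω] (A : Ω → Set ℕ) {B I : Finset ℕ} (hI : I ⊆ B) (ω : Ω) :
    (I ∩ tr A B ω).card = num' (A ω) I := by
  classical
  unfold num'
  congr 1
  ext n
  rw [mem_inter, mem_tr, mem_filter]
  exact ⟨fun h => ⟨h.1, h.2.2⟩, fun h => ⟨h.1, hI h.1, h.2⟩⟩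

theorem num_eq_zero_of_disjoint {Ω : Type*} [MeasurableSpace Ω] (A : Ω → Set ℕ) {B I : Finset ℕ} (hI : I ⊆ B) {ω : Ω}
    (h : Disjoint (tr A B ω) I) : num' (A ω) I = 0 := by
  classical
  rw [← inter_tr_card A hI ω, card_eq_zero, ← disjoint_iff_inter_eq_empty]
  exact h.symm

theorem summable_exp_neg_nat : Summable (fun k : ℕ => 2 * Real.exp (-(k : ℝ))) := by
  have h1 : Summable (fun k : ℕ => (Real.exp (-1)) ^ k) := by
    apply summable_geometric_of_lt_one (Real.exp_pos _).le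
    rw [Real.exp_lt_one_iff]
    norm_num
  refine (h1.mul_left 2).congr (fun k => ?_)
  rw [← Real.exp_nat_mul]
  congr 2
  ring

/-- **Large fluctuations.** -/
theorem some_fluct (J : Jobs) {δ η θ : ℝ} (hη1 : η ≤ 1) (hm : 0 < min η δ)
    (hθ : θ < (η + min η δ) / 2) : SomeLevel δ (fun S => ¬ Fluct η θ S) := by
  classical
  set m : ℝ := min η δ with hmdef
  have hmη : m ≤ η := min_le_left _ _
  have hmδ : m ≤ δ := min_le_right _ _
  have hη : 0 < η := hm.trans_le hmη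
  set y : ℕ → ℝ := fun k => (2 : ℝ) ^ (η * k) / 2 with hy
  have hy0 : ∀ k, 0 ≤ y k := fun k => by positivity
  have hy1 : ∀ k, y k < (2 : ℝ) ^ k := by
    intro k
    have h1 : (2 : ℝ) ^ (η * k) ≤ (2 : ℝ) ^ k := by
      rw [← Real.rpow_natCast 2 k]
      apply Real.rpow_le_rpow_of_exponent_le (by norm_num)
      have : (0 : ℝ) ≤ k := Nat.cast_nonneg k
      nlinarith
    have h2 : (0 : ℝ) < (2 : ℝ) ^ k := by positivity
    rw [hy]
    simp only
    linarith
  set I : ℕ → Finset ℕ := fun k => Ioc (2 ^ k) (2 ^ k + ⌊y k⌋₊) with hI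
  have hIb : ∀ k, I k ⊆ block k := fun k => Ioc_subset_block (hy1 k) (hy0 k)
  have hIc : ∀ k, ((I k).card : ℝ) = ⌊y k⌋₊ := by
    intro k
    rw [hI]
    simp only [Nat.card_Ioc, Nat.add_sub_cancel_left]
  set s : ℕ → ℝ := fun k => 1 / 2 * (2 : ℝ) ^ ((m - η) / 2 * k) with hs
  have hs0 : ∀ k, 0 ≤ s k := fun k => by positivity
  have hs1 : ∀ k, s k ≤ 1 := by
    intro k
    have h1 : (2 : ℝ) ^ ((m - η) / 2 * k) ≤ 1 := by
      apply Real.rpow_le_one_of_one_le_of_nonpos (by norm_num)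
      have : (0 : ℝ) ≤ k := Nat.cast_nonneg k
      nlinarith
    rw [hs]
    simp only
    linarith
  have hs2 : ∀ k, s k ^ 2 = 1 / 4 * (2 : ℝ) ^ ((m - η) * k) := by
    intro k
    rw [hs]
    simp only
    rw [mul_pow, ← Real.rpow_natCast ((2 : ℝ) ^ ((m - η) / 2 * k)) 2, ← Real.rpow_mul (by norm_num)]
    rw [show (m - η) / 2 * (k : ℝ) * ((2 : ℕ) : ℝ) = (m - η) * k by push_cast; ring]
    norm_num
  obtain ⟨P, hP⟩ := choose_P J I (fun k _ => hIb k) s hs0 hs1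
  obtain ⟨Ω, mΩ, μ, hμ, A, hA, hent, -, hall⟩ := J.mixb P (fun _ => 1)
    (fun k => {T | ((I k ∩ T).card : ℝ) ≤ (1 - s k / 2) * ∑ n ∈ I k, pc n}) (fun k hk => ⟨(hP k hk).1, (hP k hk).2.1⟩)
    (fun _ => ⟨zero_le_one, le_rfl⟩)
  -- the size of the mean
  have hMlow : ∀ᶠ k : ℕ in atTop, (2 : ℝ) ^ (η * k) / (4 * (k + 1)) ≤ ∑ n ∈ I k, pc n := by
    filter_upwards [eventually_ge_atTop 2, ev_pow_le hη 0 4] with k hk hk2
    have h1 := le_sum_pc hk (hIb k)
    refine le_trans ?_ h1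
    rw [hIc k]
    have h2 := Nat.lt_floor_add_one (y k)
    rw [pow_zero, mul_one] at hk2
    rw [div_le_div_iff₀ (by positivity) (by positivity)]
    have h3 : (2 : ℝ) ^ (η * k) / 4 ≤ ⌊y k⌋₊ := by
      have : y k = (2 : ℝ) ^ (η * k) / 2 := rfl
      linarith
    have h4 : (0 : ℝ) ≤ (k : ℝ) + 1 := by positivity
    nlinarith
  refine ⟨Ω, mΩ, μ, hμ, A, hA, ?_, ?_⟩
  · intro ε hε
    filter_upwards [eventually_ge_atTop 3] with k hk
    have hk2 : 2 ≤ k := by omega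
    have hk0 : (3 : ℝ) ≤ k := by exact_mod_cast hk
    refine (hent k hk2).trans ?_
    rw [one_mul]
    refine ((hP k hk2).2.2.1).trans ?_
    have h1 := sum_pc_le hk2 (hIb k)
    have h2 : ((I k).card : ℝ) ≤ (2 : ℝ) ^ (η * k) / 2 := by
      rw [hIc k]
      exact Nat.floor_le (hy0 k)
    have h3 : ∑ n ∈ I k, pc n ≤ (2 : ℝ) ^ (η * k) / 3 := by
      refine h1.trans ?_
      calc ((I k).card : ℝ) * (2 / k) ≤ (2 : ℝ) ^ (η * k) / 2 * (2 / 3) := by
            gcongr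
        _ = _ := by ring
    have h4 : (2 : ℝ) ^ ((m - η) * k) * (2 : ℝ) ^ (η * k) = (2 : ℝ) ^ (m * k) := by
      rw [← Real.rpow_add (by norm_num)]
      congr 1
      ring
    calc 12 * (s k ^ 2 * ∑ n ∈ I k, pc n) ≤ 12 * (s k ^ 2 * ((2 : ℝ) ^ (η * k) / 3)) := by gcongr
      _ = (2 : ℝ) ^ (m * k) := by
          rw [hs2 k, ← h4]
          ring
      _ ≤ (2 : ℝ) ^ ((δ + ε) * k) := by
          apply Real.rpow_le_rpow_of_exponent_le (by norm_num)
          nlinarith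
  · have hsum : Summable (fun k => ∑ T ∈ (block k).powerset with
        ¬ T ∈ {T : Finset ℕ | ((I k ∩ T).card : ℝ) ≤ (1 - s k / 2) * ∑ n ∈ I k, pc n}, P k T) := by
      refine Summable.of_norm_bounded_eventually_nat summable_exp_neg_nat ?_
      filter_upwards [eventually_ge_atTop 2, hMlow, ev_pow_le hm 2 768] with k hk hk2 hk3
      have h1 : ∀ T ∈ (block k).powerset, 0 ≤ P k T := (hP k hk).1
      rw [Real.norm_eq_abs, abs_of_nonneg (sum_nonneg (fun T hT => h1 T (mem_filter.1 hT).1))]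
      refine le_trans (le_of_eq ?_) (((hP k hk).2.2.2.1).trans ?_)
      · refine sum_congr ?_ (fun _ _ => rfl)
        ext T
        simp only [mem_filter, Set.mem_ofPred_eq, not_le]
      refine mul_le_mul_of_nonneg_left (Real.exp_le_exp.2 (neg_le_neg ?_)) (by norm_num)
      have hk1 : (1 : ℝ) ≤ k := by
        have : 1 ≤ k := by omega
        exact_mod_cast this
      have h4 : (2 : ℝ) ^ ((m - η) * k) * (2 : ℝ) ^ (η * k) = (2 : ℝ) ^ (m * k) := by
        rw [← Real.rpow_add (by norm_num)]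
        congr 1
        ring
      have h5 : (2 : ℝ) ^ (m * k) / (16 * (k + 1)) ≤ s k ^ 2 * ∑ n ∈ I k, pc n := by
        calc (2 : ℝ) ^ (m * k) / (16 * (k + 1)) = s k ^ 2 * ((2 : ℝ) ^ (η * k) / (4 * (k + 1))) := by
              rw [hs2 k, ← h4]
              field_simp
              ring
          _ ≤ _ := mul_le_mul_of_nonneg_left hk2 (by positivity)
      rw [le_div_iff₀ (by norm_num)]
      refine le_trans ?_ h5
      rw [le_div_iff₀ (by positivity)]
      nlinarith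
    filter_upwards [hall (fun _ => rfl) hsum] with ω hω hF
    set ε : ℝ := ((η + m) / 2 - θ) / 2 with hε
    have hε0 : 0 < ε := by
      rw [hε]
      linarith
    obtain ⟨C, hC⟩ := hF ε hε0
    obtain ⟨k, hk1, hk2, hk3, hk4⟩ := (hω.and (hMlow.and ((ev_pow_le hε0 1 (33 * (|C| + 1))).and
      (eventually_ge_atTop 1)))).exists
    have hk0 : (1 : ℝ) ≤ k := by exact_mod_cast hk4
    have h1 : ((I k ∩ tr A (block k) ω).card : ℝ) ≤ (1 - s k / 2) * ∑ n ∈ I k, pc n := hk1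
    rw [inter_tr_card A (hIb k) ω] at h1
    have hpow : ((2 : ℝ) ^ k) ^ η = (2 : ℝ) ^ (η * k) := by
      rw [← Real.rpow_natCast 2 k, ← Real.rpow_mul (by norm_num)]
      congr 1
      ring
    have h2 := hC ((2 : ℝ) ^ k) (y k) (one_le_pow₀ (by norm_num)) (hy0 k) (by
      rw [hpow]
      have : y k = (2 : ℝ) ^ (η * k) / 2 := rfl
      rw [this]
      have : (0 : ℝ) < (2 : ℝ) ^ (η * k) := by positivity
      linarith)
    unfold cn at h2
    rw [iv_two_pow (hy0 k)] at h2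
    have h3 : s k / 2 * ∑ n ∈ I k, pc n ≤ C * ((2 : ℝ) ^ k) ^ (θ + ε) := by
      refine le_trans ?_ h2
      have h4 := neg_le_abs ((num' (A ω) (Ioc (2 ^ k) (2 ^ k + ⌊y k⌋₊)) : ℝ) - ∑ n ∈ Ioc (2 ^ k) (2 ^ k + ⌊y k⌋₊), pc n)
      have h5 : (num' (A ω) (Ioc (2 ^ k) (2 ^ k + ⌊y k⌋₊)) : ℝ) ≤ (1 - s k / 2) * ∑ n ∈ Ioc (2 ^ k) (2 ^ k + ⌊y k⌋₊), pc n := h1
      show s k / 2 * ∑ n ∈ Ioc (2 ^ k) (2 ^ k + ⌊y k⌋₊), pc n ≤ _
      linarith
    have h4 : (2 : ℝ) ^ ((m - η) / 2 * k) * (2 : ℝ) ^ (η * k) = ((2 : ℝ) ^ k) ^ (θ + ε) * (2 : ℝ) ^ (ε * k) := by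
      rw [← Real.rpow_natCast 2 k, ← Real.rpow_mul (by norm_num), ← Real.rpow_add (by norm_num),
        ← Real.rpow_add (by norm_num)]
      congr 1
      rw [hε]
      ring
    have h5 : ((2 : ℝ) ^ k) ^ (θ + ε) * (2 : ℝ) ^ (ε * k) / (16 * (k + 1)) ≤ s k / 2 * ∑ n ∈ I k, pc n := by
      calc ((2 : ℝ) ^ k) ^ (θ + ε) * (2 : ℝ) ^ (ε * k) / (16 * (k + 1)) =
            s k / 2 * ((2 : ℝ) ^ (η * k) / (4 * (k + 1))) := by
            rw [← h4]
            show _ = (1 / 2 * (2 : ℝ) ^ ((m - η) / 2 * k)) / 2 * _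
            field_simp
            ring
        _ ≤ _ := mul_le_mul_of_nonneg_left hk2 (by have := hs0 k; positivity)
    have h6 := h5.trans h3
    rw [div_le_iff₀ (by positivity)] at h6
    have hX : (0 : ℝ) < ((2 : ℝ) ^ k) ^ (θ + ε) := by positivity
    rw [pow_one] at hk3
    have h7 : (2 : ℝ) ^ (ε * k) ≤ C * (16 * (k + 1)) := by
      have h8 : ((2 : ℝ) ^ k) ^ (θ + ε) * (2 : ℝ) ^ (ε * k) ≤ ((2 : ℝ) ^ k) ^ (θ + ε) * (C * (16 * (k + 1))) := by linarith
      exact le_of_mul_le_mul_left h8 hX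
    have h9 : C * (16 * ((k : ℝ) + 1)) ≤ |C| * (32 * k) := by
      have h10 : C * (16 * ((k : ℝ) + 1)) ≤ |C| * (16 * ((k : ℝ) + 1)) :=
        mul_le_mul_of_nonneg_right (le_abs_self C) (by positivity)
      have h11 : |C| * (16 * ((k : ℝ) + 1)) ≤ |C| * (32 * k) := mul_le_mul_of_nonneg_left (by linarith) (abs_nonneg _)
      linarith
    have h12 : 0 ≤ |C| := abs_nonneg C
    nlinarith

/-- **Empty intervals infinitely often.** -/
theorem some_empty (J : Jobs) {ε : ℝ} (hε1 : ε < 1) {d : ℕ → ℝ} (hd : ∀ k, 0 ≤ d k)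
    (hns : ¬ Summable (fun k : ℕ => d k * k / (2 : ℝ) ^ (ε * k))) :
    SomeModel d (fun S => ∃ᶠ k : ℕ in atTop, cn S ((2 : ℝ) ^ k) (((2 : ℝ) ^ k) ^ ε) = 0) := by
  classical
  have hpow : ∀ k : ℕ, ((2 : ℝ) ^ k) ^ ε = (2 : ℝ) ^ (ε * k) := by
    intro k
    rw [← Real.rpow_natCast 2 k, ← Real.rpow_mul (by norm_num)]
    congr 1
    ring
  set y : ℕ → ℝ := fun k => (2 : ℝ) ^ (ε * k) with hy
  have hy0 : ∀ k, 0 ≤ y k := fun k => by positivity
  set I : ℕ → Finset ℕ := fun k => Ioc (2 ^ k) (2 ^ k + ⌊y k⌋₊) with hI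
  have hIb : ∀ k, 2 ≤ k → I k ⊆ block k := by
    intro k hk
    refine Ioc_subset_block ?_ (hy0 k)
    rw [hy]
    simp only
    rw [← Real.rpow_natCast 2 k]
    apply Real.rpow_lt_rpow_of_exponent_lt (by norm_num)
    have : (2 : ℝ) ≤ k := by exact_mod_cast hk
    nlinarith
  have hIc : ∀ k, ((I k).card : ℝ) ≤ (2 : ℝ) ^ (ε * k) := by
    intro k
    rw [hI]
    simp only [Nat.card_Ioc, Nat.add_sub_cancel_left]
    exact Nat.floor_le (hy0 k)
  obtain ⟨P, hP⟩ := choose_P J I hIb (fun _ => 1) (fun _ => zero_le_one) (fun _ => le_rfl)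
  set q : ℕ → ℝ := fun k => if 2 ≤ k then min 1 (d k * k / (24 * (2 : ℝ) ^ (ε * k))) else 0 with hq
  have hq01 : ∀ k, 0 ≤ q k ∧ q k ≤ 1 := by
    intro k
    rw [hq]
    simp only
    have := hd k
    split_ifs
    · exact ⟨le_min zero_le_one (by positivity), min_le_left _ _⟩
    · exact ⟨le_rfl, zero_le_one⟩
  obtain ⟨Ω, mΩ, μ, hμ, A, hA, hent, hinf, -⟩ := J.mixb P q (fun k => {T | Disjoint T (I k)})
    (fun k hk => ⟨(hP k hk).1, (hP k hk).2.1⟩) hq01
  have hPE : ∀ k, 2 ≤ k → ∑ T ∈ (block k).powerset with T ∈ {T : Finset ℕ | Disjoint T (I k)}, P k T = 1 := by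
    intro k hk
    rw [← (hP k hk).2.1]
    refine sum_subset (filter_subset _ _) (fun T hT hT2 => ?_)
    by_contra h
    exact hT2 (mem_filter.2 ⟨hT, (hP k hk).2.2.2.2 rfl T hT h⟩)
  refine ⟨Ω, mΩ, μ, hμ, A, hA, ?_, ?_⟩
  · intro k hk
    refine (hent k hk).trans ?_
    have hk0 : (0 : ℝ) < k := by
      have : 0 < k := by omega
      exact_mod_cast this
    have h1 := (hP k hk).2.2.1
    rw [one_pow, one_mul] at h1
    have h2 := sum_pc_le hk (hIb k hk)
    have h3 : ∑ n ∈ I k, pc n ≤ (2 : ℝ) ^ (ε * k) * (2 / k) := h2.trans (mul_le_mul_of_nonneg_right (hIc k) (by positivity))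
    have h4 : q k ≤ d k * k / (24 * (2 : ℝ) ^ (ε * k)) := by
      rw [hq]
      simp only [if_pos hk]
      exact min_le_right _ _
    have hpos : (0 : ℝ) < (2 : ℝ) ^ (ε * k) := by positivity
    calc q k * ∑ T ∈ (block k).powerset, P k T * Real.log (P k T / cramerOn (block k) T)
        ≤ q k * (12 * ((2 : ℝ) ^ (ε * k) * (2 / k))) := mul_le_mul_of_nonneg_left (by linarith) (hq01 k).1
      _ ≤ d k * k / (24 * (2 : ℝ) ^ (ε * k)) * (12 * ((2 : ℝ) ^ (ε * k) * (2 / k))) :=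
          mul_le_mul_of_nonneg_right h4 (by positivity)
      _ = d k := by
          field_simp
          ring
  · have h1 : ¬ Summable (fun k => q k * ∑ T ∈ (block k).powerset with T ∈ {T : Finset ℕ | Disjoint T (I k)}, P k T) := by
      intro hs
      have hs2 : Summable q := by
        refine hs.congr (fun k => ?_)
        by_cases hk : 2 ≤ k
        · rw [hPE k hk, mul_one]
        · rw [hq]
          simp only [if_neg hk, zero_mul]
      apply hns
      have h3 : ∀ᶠ k : ℕ in atTop, q k < 1 := hs2.tendsto_atTop_zero.eventually_lt_const one_pos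
      have h4 : Summable (fun k => 24 * q k) := hs2.mul_left 24
      refine Summable.of_norm_bounded_eventually_nat h4 ?_
      filter_upwards [h3, eventually_ge_atTop 2] with k hk hk2
      have h5 : q k = d k * k / (24 * (2 : ℝ) ^ (ε * k)) := by
        have h6 : q k = min 1 (d k * k / (24 * (2 : ℝ) ^ (ε * k))) := by
          rw [hq]
          simp only [if_pos hk2]
        rw [h6] at hk ⊢
        rcases min_lt_iff.1 hk with h7 | h7
        · exact absurd h7 (lt_irrefl _)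
        · exact min_eq_right h7.le
      have := hd k
      rw [Real.norm_eq_abs, abs_of_nonneg (by positivity), h5]
      have hpos : (0 : ℝ) < (2 : ℝ) ^ (ε * k) := by positivity
      apply le_of_eq
      field_simp
    filter_upwards [hinf h1] with ω hω
    have h2 : ∃ᶠ k : ℕ in atTop, tr A (block k) ω ∈ {T : Finset ℕ | Disjoint T (I k)} ∧ 2 ≤ k :=
      hω.and_eventually (eventually_ge_atTop 2)
    refine h2.mono (fun k hk => ?_)
    unfold cn
    rw [hpow k, iv_two_pow (hy0 k)]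
    exact num_eq_zero_of_disjoint A (hIb k hk.2) hk.1

/-- **A large exceptional set.** -/
theorem some_exc (J : Jobs) {δ η : ℝ} (hη : 0 < η) (hηδ : η ≤ δ) (hδ : δ < 1) :
    SomeLevel δ (fun S => ∀ᶠ k : ℕ in atTop, (2 : ℝ) ^ (δ * k) ≤ n0 S η k) := by
  classical
  have hδ0 : 0 < δ := hη.trans_le hηδ
  set y : ℕ → ℝ := fun k => if 5 * (2 : ℝ) ^ (δ * k) < (2 : ℝ) ^ k then 5 * (2 : ℝ) ^ (δ * k) else 0 with hy
  have hy0 : ∀ k, 0 ≤ y k := by
    intro k
    rw [hy]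
    simp only
    split_ifs <;> positivity
  have hy1 : ∀ k, y k < (2 : ℝ) ^ k := by
    intro k
    rw [hy]
    simp only
    split_ifs with h
    · exact h
    · positivity
  have hy2 : ∀ k, y k ≤ 5 * (2 : ℝ) ^ (δ * k) := by
    intro k
    rw [hy]
    simp only
    split_ifs
    · exact le_rfl
    · positivity
  have hy3 : ∀ᶠ k : ℕ in atTop, y k = 5 * (2 : ℝ) ^ (δ * k) := by
    filter_upwards [ev_pow_le (show 0 < (1 - δ) by linarith) 0 6] with k hk
    rw [hy]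
    simp only
    rw [if_pos]
    rw [pow_zero, mul_one] at hk
    have h1 : (2 : ℝ) ^ k = (2 : ℝ) ^ ((1 - δ) * k) * (2 : ℝ) ^ (δ * k) := by
      rw [← Real.rpow_add (by norm_num), ← Real.rpow_natCast 2 k]
      congr 1
      ring
    rw [h1]
    have h2 : (0 : ℝ) < (2 : ℝ) ^ (δ * k) := by positivity
    nlinarith
  set I : ℕ → Finset ℕ := fun k => Ioc (2 ^ k) (2 ^ k + ⌊y k⌋₊) with hI
  have hIb : ∀ k, I k ⊆ block k := fun k => Ioc_subset_block (hy1 k) (hy0 k)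
  have hIc : ∀ k, ((I k).card : ℝ) ≤ 5 * (2 : ℝ) ^ (δ * k) := by
    intro k
    rw [hI]
    simp only [Nat.card_Ioc, Nat.add_sub_cancel_left]
    exact (Nat.floor_le (hy0 k)).trans (hy2 k)
  obtain ⟨P, hP⟩ := choose_P J I (fun k _ => hIb k) (fun _ => 1) (fun _ => zero_le_one) (fun _ => le_rfl)
  obtain ⟨Ω, mΩ, μ, hμ, A, hA, hent, -, hall⟩ := J.mixb P (fun _ => 1) (fun k => {T | Disjoint T (I k)})
    (fun k hk => ⟨(hP k hk).1, (hP k hk).2.1⟩) (fun _ => ⟨zero_le_one, le_rfl⟩)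
  refine ⟨Ω, mΩ, μ, hμ, A, hA, ?_, ?_⟩
  · intro ε hε
    filter_upwards [eventually_ge_atTop 120] with k hk
    have hk2 : 2 ≤ k := by omega
    have hk0 : (120 : ℝ) ≤ k := by exact_mod_cast hk
    refine (hent k hk2).trans ?_
    have h1 := (hP k hk2).2.2.1
    rw [one_pow, one_mul] at h1
    rw [one_mul]
    refine h1.trans ?_
    have h2 := sum_pc_le hk2 (hIb k)
    have h3 : ∑ n ∈ I k, pc n ≤ 5 * (2 : ℝ) ^ (δ * k) * (2 / 120) := by
      refine h2.trans ?_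
      have := hIc k
      gcongr
    calc 12 * ∑ n ∈ I k, pc n ≤ 12 * (5 * (2 : ℝ) ^ (δ * k) * (2 / 120)) := by linarith
      _ = (2 : ℝ) ^ (δ * k) := by ring
      _ ≤ (2 : ℝ) ^ ((δ + ε) * k) := by
          apply Real.rpow_le_rpow_of_exponent_le (by norm_num)
          nlinarith
  · have hsum : Summable (fun k => ∑ T ∈ (block k).powerset with ¬ T ∈ {T : Finset ℕ | Disjoint T (I k)}, P k T) := by
      refine summable_of_ne_finset_zero (s := range 2) (fun k hk => ?_)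
      rw [mem_range, not_lt] at hk
      refine sum_eq_zero (fun T hT => ?_)
      rw [mem_filter] at hT
      by_contra h
      exact hT.2 ((hP k hk).2.2.2.2 rfl T hT.1 h)
    filter_upwards [hall (fun _ => rfl) hsum] with ω hω
    filter_upwards [hω, hy3, eventually_ge_atTop 1, ev_pow_le (show 0 < (1 - δ) by linarith) 0 6] with k hk hk2 hk3 hk4
    have h0 : num' (A ω) (I k) = 0 := num_eq_zero_of_disjoint A (hIb k) hk
    have hem : ∀ n ∈ I k, n ∉ A ω := by
      intro n hn hn2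
      unfold num' at h0
      rw [card_eq_zero] at h0
      have : n ∈ (I k).filter (fun n => n ∈ A ω) := mem_filter.2 ⟨hn, hn2⟩
      rw [h0] at this
      exact absurd this (notMem_empty _)
    have hz : (0 : ℝ) < (2 : ℝ) ^ (δ * k) := by positivity
    have hlt : (2 : ℝ) ^ (δ * k) < (2 : ℝ) ^ k := by
      rw [pow_zero, mul_one] at hk4
      have h1 : (2 : ℝ) ^ k = (2 : ℝ) ^ ((1 - δ) * k) * (2 : ℝ) ^ (δ * k) := by
        rw [← Real.rpow_add (by norm_num), ← Real.rpow_natCast 2 k]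
        congr 1
        ring
      rw [h1]
      nlinarith
    have hsub : Icc (2 ^ k) (2 ^ k + ⌊(2 : ℝ) ^ (δ * k)⌋₊) ⊆
        (block k).filter (fun n : ℕ => cn (A ω) n ((n : ℝ) ^ η) = 0) := by
      intro n hn
      rw [mem_Icc] at hn
      have hfl : ⌊(2 : ℝ) ^ (δ * k)⌋₊ < 2 ^ k := by
        rw [Nat.floor_lt hz.le]
        push_cast
        exact hlt
      have hn2 : n < 2 ^ (k + 1) := by
        have : 2 ^ (k + 1) = 2 ^ k + 2 ^ k := by ring
        omega
      rw [mem_filter, block, mem_Ico]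
      refine ⟨⟨hn.1, hn2⟩, ?_⟩
      unfold cn num'
      rw [card_eq_zero, filter_eq_empty_iff]
      intro m' hm'
      apply hem
      have hmem := (Pool.Agent.Q252.SI.mem_iv m').1 hm'
      rw [hI]
      simp only
      rw [mem_Ioc]
      have h1 : n < m' := by exact_mod_cast hmem.1
      refine ⟨by omega, ?_⟩
      -- the length
      have hnr : (n : ℝ) ≤ (2 : ℝ) ^ (k + 1) := by exact_mod_cast hn2.le
      have hn0 : (0 : ℝ) ≤ n := Nat.cast_nonneg n
      have h2 : (n : ℝ) ^ η ≤ 2 * (2 : ℝ) ^ (δ * k) := by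
        calc (n : ℝ) ^ η ≤ ((2 : ℝ) ^ (k + 1)) ^ η := Real.rpow_le_rpow hn0 hnr hη.le
          _ = (2 : ℝ) ^ (η * (k + 1)) := by
              rw [← Real.rpow_natCast 2 (k + 1), ← Real.rpow_mul (by norm_num)]
              congr 1
              push_cast
              ring
          _ ≤ (2 : ℝ) ^ (1 + δ * k) := by
              apply Real.rpow_le_rpow_of_exponent_le (by norm_num)
              have : (0 : ℝ) ≤ k := Nat.cast_nonneg k
              nlinarith
          _ = 2 * (2 : ℝ) ^ (δ * k) := by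
              rw [Real.rpow_add (by norm_num), Real.rpow_one]
      have h3 : (n : ℝ) ≤ (2 : ℝ) ^ k + (2 : ℝ) ^ (δ * k) := by
        have h4 : (n : ℝ) ≤ ((2 ^ k + ⌊(2 : ℝ) ^ (δ * k)⌋₊ : ℕ) : ℝ) := by exact_mod_cast hn.2
        push_cast at h4
        have := Nat.floor_le hz.le
        linarith
      have h4 : (m' : ℝ) ≤ (2 : ℝ) ^ k + y k := by
        rw [hk2]
        linarith [hmem.2]
      have h5 : 2 ^ k ≤ m' := by omega
      have h6 : ((m' - 2 ^ k : ℕ) : ℝ) ≤ y k := by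
        rw [Nat.cast_sub h5]
        push_cast
        linarith
      have h7 := Nat.le_floor h6
      omega
    have hcard := card_le_card hsub
    rw [Nat.card_Icc] at hcard
    unfold n0
    have h1 : (2 : ℝ) ^ (δ * k) ≤ ((2 ^ k + ⌊(2 : ℝ) ^ (δ * k)⌋₊ + 1 - 2 ^ k : ℕ) : ℝ) := by
      have h2 : 2 ^ k + ⌊(2 : ℝ) ^ (δ * k)⌋₊ + 1 - 2 ^ k = ⌊(2 : ℝ) ^ (δ * k)⌋₊ + 1 := by omega
      rw [h2]
      push_cast
      exact (Nat.lt_floor_add_one _).le
    refine h1.trans ?_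
    exact_mod_cast hcard

end Pool.Agent.Q120.SI
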