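import Pool.Agent.Q120.SI.Stm
import Pool.Agent.Q111.GE.LAW

/-!
# Project SI: the event bound for one block
-/

set_option autoImplicit false

namespace Pool.Agent.Q120.SI

open Finset MeasureTheory Filter Pool.Agent.Q120.ET Pool.Agent.Q120.GM Pool.Agent.Q120.GE Pool.Agent.Q120.RZ

theorem entb : J_ENTB := by
  intro k hk F _ u hu hF Ω _ μ _ A hA
  obtain ⟨Ω', _, μ', _, A', hA'⟩ := Pool.Agent.Q111.GE.exists_model
  have hB : ∀ n ∈ block k, 3 ≤ n := fun n hn => three_le_of_mem_block hk hn
  have h1 := hF Ω' μ' A' hA'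
  rw [real_event (μ := μ') (A := A') (fun n => hA'.meas n) (block k) F] at h1
  have h2 : ∀ T ∈ (block k).powerset.filter F, lawOn μ' A' (block k) T =
      cramerOn (block k) T := fun T hT =>
    (Pool.Agent.Q111.GE.t_LAW Ω' μ' A').2 hA' _ T hB (mem_powerset.1 (mem_filter.1 hT).1)
  rw [sum_congr rfl h2] at h1
  have h3 := event_bound (μ := μ) hA hB F hu le_rfl h1
  rw [← Real.exp_add] at h3
  rw [show u + -(2 * u) = -u by ring] at h3
  exact h3

end Pool.Agent.Q120.SI
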