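import Pool.Agent.Q120.SI.Up
import Pool.Agent.Q252.SI.DET

/-!
# Project SI: assembly, fluctuations and constructions
-/

set_option autoImplicit false

namespace Pool.Agent.Q120.SI

open Finset MeasureTheory Filter Pool.Agent.Q120.ET Pool.Agent.Q120.GM Pool.Agent.Q120.GE Pool.Agent.Q120.RZ Pool.Agent.Q120.SP
  Pool.Agent.Q120.LG
open scoped Topology

theorem dev_iv_le (S : Set ℕ) {x H : ℝ} (hx : 0 ≤ x) (hH : 0 ≤ H) : |(cn S x H : ℝ) - ∑ n ∈ iv x H, pc n| ≤ H + 1 := by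
  refine (Pool.Agent.Q151.SI.dev_le S (iv x H)).trans ?_
  rw [Pool.Agent.Q151.SI.iv_eq hx hH, Nat.card_Ioc]
  have h1 : ⌊x⌋₊ ≤ ⌊x + H⌋₊ := Nat.floor_le_floor (by linarith)
  rw [Nat.cast_sub h1]
  have h2 := Nat.floor_le (show 0 ≤ x + H by linarith)
  have h3 := Nat.lt_floor_add_one x
  linarith

/-- **Upper bound for the fluctuations.** -/
theorem all_fluct (J : Jobs) {δ η θ : ℝ} (hδ : 0 ≤ δ) (hη : 0 < η) (hη1 : η ≤ 1) (hθ : (η + min η δ) / 2 ≤ θ) :
    AllLevel δ (Fluct η θ) := by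
  intro Ω _ μ _ A hA hD
  rcases le_or_gt η δ with hηδ | hηδ
  · -- the trivial range
    refine ae_of_all _ (fun ω ε hε => ⟨2, fun x H hx hH0 hH => ?_⟩)
    rw [min_eq_left hηδ] at hθ
    refine (dev_iv_le (A ω) (by linarith) hH0).trans ?_
    have h1 : x ^ η ≤ x ^ (θ + ε) := Real.rpow_le_rpow_of_exponent_le hx (by linarith)
    have h2 : 1 ≤ x ^ (θ + ε) := Real.one_le_rpow hx (by linarith)
    linarith
  · rw [min_eq_right hηδ.le] at hθ
    have h1 : ∀ n : ℕ, ∀ᵐ ω ∂μ, ∀ᶠ k : ℕ in atTop, ∀ a b : ℕ, 2 ^ k ≤ a + 1 → a ≤ b → b < 2 ^ (k + 1) →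
        |(num' (A ω) (Ioc a b) : ℝ) - ∑ n ∈ Ioc a b, pc n| ≤
          Real.sqrt (((b : ℝ) - a) * (2 : ℝ) ^ ((δ + 1 / ((n : ℝ) + 1)) * k)) := by
      intro n
      classical
      set ε : ℝ := 1 / ((n : ℝ) + 1) with hε
      have hε0 : 0 < ε := by positivity
      have hβ : 0 < δ + ε := by linarith
      have h2 := bc (μ := μ) (B := fun k => {ω | ∃ a b : ℕ, 2 ^ k ≤ a + 1 ∧ a ≤ b ∧ b < 2 ^ (k + 1) ∧
          Real.sqrt (((b : ℝ) - a) * (2 : ℝ) ^ ((δ + ε) * k)) < |(num' (A ω) (Ioc a b) : ℝ) - ∑ n ∈ Ioc a b, pc n|})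
        (g := fun k => 64 * ((k : ℝ) ^ 0 / (2 : ℝ) ^ (ε / 2 * k))) ((summable_pow_div (by positivity) 0).mul_left 64) (by
        filter_upwards [J.upb J.tail (δ + ε) hβ, hD (ε / 2) (by positivity), eventually_ge_atTop 2] with k hk hk2 hk3
        have hu : (0 : ℝ) < (2 : ℝ) ^ ((δ + ε) * k) / 32 := by positivity
        have hev : ∀ {Ω' : Type} [MeasurableSpace Ω'] (A' : Ω' → Set ℕ), {ω | ∃ a b : ℕ, 2 ^ k ≤ a + 1 ∧ a ≤ b ∧ b < 2 ^ (k + 1) ∧
            Real.sqrt (((b : ℝ) - a) * (2 : ℝ) ^ ((δ + ε) * k)) <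
              |(num' (↑(tr A' (block k) ω)) (Ioc a b) : ℝ) - ∑ n ∈ Ioc a b, pc n|} =
            {ω | ∃ a b : ℕ, 2 ^ k ≤ a + 1 ∧ a ≤ b ∧ b < 2 ^ (k + 1) ∧
            Real.sqrt (((b : ℝ) - a) * (2 : ℝ) ^ ((δ + ε) * k)) < |(num' (A' ω) (Ioc a b) : ℝ) - ∑ n ∈ Ioc a b, pc n|} := by
          intro Ω' _ A'
          ext ω
          simp only [Set.mem_ofPred_eq]
          have h4 : ∀ a b : ℕ, 2 ^ k ≤ a + 1 → b < 2 ^ (k + 1) → num' (↑(tr A' (block k) ω)) (Ioc a b) = num' (A' ω) (Ioc a b) := by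
            intro a b ha hb
            refine num_tr A' (fun m hm => ?_) ω
            rw [mem_Ioc] at hm
            rw [block, mem_Ico]
            omega
          constructor
          · rintro ⟨a, b, h5, h6, h7, h8⟩
            refine ⟨a, b, h5, h6, h7, ?_⟩
            rwa [h4 a b h5 h7] at h8
          · rintro ⟨a, b, h5, h6, h7, h8⟩
            refine ⟨a, b, h5, h6, h7, ?_⟩
            rwa [h4 a b h5 h7]
        have h3 := J.entb k hk3 (fun T => ∃ a b : ℕ, 2 ^ k ≤ a + 1 ∧ a ≤ b ∧ b < 2 ^ (k + 1) ∧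
            Real.sqrt (((b : ℝ) - a) * (2 : ℝ) ^ ((δ + ε) * k)) < |(num' (↑T) (Ioc a b) : ℝ) - ∑ n ∈ Ioc a b, pc n|)
          ((2 : ℝ) ^ ((δ + ε) * k) / 32) hu (by
            intro Ω' _ μ' _ A' hA'
            rw [hev A']
            refine (hk Ω' μ' A' hA').trans (le_of_eq ?_)
            congr 1
            ring) Ω μ A hA
        rw [hev A] at h3
        refine h3.trans ?_
        have h5 : Real.exp (-((2 : ℝ) ^ ((δ + ε) * k) / 32)) ≤ 1 := by
          rw [Real.exp_le_one_iff]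
          linarith
        have h6 : (1 : ℝ) ≤ (2 : ℝ) ^ ((δ + ε / 2) * k) := Real.one_le_rpow (by norm_num) (by positivity)
        have h7 : (2 : ℝ) ^ ((δ + ε) * k) = (2 : ℝ) ^ ((δ + ε / 2) * k) * (2 : ℝ) ^ (ε / 2 * k) := by
          rw [← Real.rpow_add (by norm_num)]
          congr 1
          ring
        rw [pow_zero, ← mul_div_assoc, div_le_div_iff₀ hu (by positivity), h7]
        have h8 : (0 : ℝ) < (2 : ℝ) ^ (ε / 2 * k) := by positivity
        calc (relEntropy μ A (block k) + Real.exp (-((2 : ℝ) ^ ((δ + ε / 2) * k) * (2 : ℝ) ^ (ε / 2 * k) / 32))) * (2 : ℝ) ^ (ε / 2 * k)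
            ≤ (2 * (2 : ℝ) ^ ((δ + ε / 2) * k)) * (2 : ℝ) ^ (ε / 2 * k) := by
              refine mul_le_mul_of_nonneg_right ?_ h8.le
              rw [← h7]
              linarith
          _ = 64 * 1 * ((2 : ℝ) ^ ((δ + ε / 2) * k) * (2 : ℝ) ^ (ε / 2 * k) / 32) := by ring)
      filter_upwards [h2] with ω hω
      filter_upwards [hω] with k hk a b ha hab hb
      by_contra h3
      exact hk ⟨a, b, ha, hab, hb, not_le.1 h3⟩
    filter_upwards [ae_all_iff.2 h1] with ω hω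
    have h2 := J.detb (A ω) δ hδ (by
      intro ε hε
      obtain ⟨n, hn⟩ := exists_nat_one_div_lt hε
      filter_upwards [hω n] with k hk a b ha hab hb
      refine (hk a b ha hab hb).trans (Real.sqrt_le_sqrt ?_)
      have h3 : (0 : ℝ) ≤ (b : ℝ) - a := by
        have : (a : ℝ) ≤ b := by exact_mod_cast hab
        linarith
      refine mul_le_mul_of_nonneg_left ?_ h3
      apply Real.rpow_le_rpow_of_exponent_le (by norm_num)
      have h4 : (0 : ℝ) ≤ k := Nat.cast_nonneg k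
      nlinarith)
    intro ε hε
    obtain ⟨C, hC0, hC⟩ := h2 (2 * ε) (by positivity)
    refine ⟨C + 2, fun x H hx hH0 hH => ?_⟩
    have hpos : 1 ≤ x ^ (θ + ε) := Real.one_le_rpow hx (by linarith)
    rcases lt_or_ge H 1 with h3 | h3
    · refine (dev_iv_le (A ω) (by linarith) hH0).trans ?_
      nlinarith
    · have hHx : H ≤ x := by
        refine hH.trans ?_
        calc x ^ η ≤ x ^ (1 : ℝ) := Real.rpow_le_rpow_of_exponent_le hx hη1
          _ = x := Real.rpow_one x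
      refine (hC x H hx h3 hHx).trans ?_
      have h4 : Real.sqrt (H * x ^ (δ + 2 * ε)) ≤ x ^ (θ + ε) := by
        rw [Real.sqrt_le_left (by linarith)]
        calc H * x ^ (δ + 2 * ε) ≤ x ^ η * x ^ (δ + 2 * ε) := mul_le_mul_of_nonneg_right hH (by positivity)
          _ = x ^ (η + δ + 2 * ε) := by
              rw [← Real.rpow_add (by linarith)]
              congr 1
              ring
          _ ≤ x ^ (2 * (θ + ε)) := Real.rpow_le_rpow_of_exponent_le hx (by linarith)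
          _ = (x ^ (θ + ε)) ^ 2 := by
              rw [← Real.rpow_natCast (x ^ (θ + ε)) 2, ← Real.rpow_mul (by linarith)]
              congr 1
              push_cast
              ring
      nlinarith [mul_le_mul_of_nonneg_left h4 hC0]

/-! ### Constructions -/

theorem pc_le_block {k n : ℕ} (hk : 2 ≤ k) (hn : n ∈ block k) : pc n ≤ 2 / k :=
  Pool.Agent.Q252.SI.pc_le hk (by rw [block, mem_Ico] at hn; exact hn.1)

theorem sum_pc_le {k : ℕ} (hk : 2 ≤ k) {I : Finset ℕ} (hI : I ⊆ block k) : ∑ n ∈ I, pc n ≤ I.card * (2 / k) := by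
  rw [← nsmul_eq_mul, ← sum_const]
  exact sum_le_sum (fun n hn => pc_le_block hk (hI hn))

theorem le_pc_block {k n : ℕ} (hk : 2 ≤ k) (hn : n ∈ block k) : 1 / ((k : ℝ) + 1) ≤ pc n := by
  have h3 := three_le_of_mem_block hk hn
  unfold pc
  rw [if_pos h3]
  have h1 : 0 < Real.log n := by
    have := one_lt_log h3
    linarith
  refine one_div_le_one_div_of_le h1 ?_
  rw [block, mem_Ico] at hn
  have h2 : (n : ℝ) ≤ (2 : ℝ) ^ (k + 1) := by exact_mod_cast hn.2.le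
  have h4 : (0 : ℝ) < n := by
    have : 0 < n := by omega
    exact_mod_cast this
  have h5 := Real.log_le_log h4 h2
  rw [Real.log_pow] at h5
  push_cast at h5
  have h6 : Real.log 2 ≤ 1 := by
    have := Real.log_two_lt_d9
    linarith
  have h7 : (0 : ℝ) ≤ (k : ℝ) + 1 := by positivity
  nlinarith

theorem le_sum_pc {k : ℕ} (hk : 2 ≤ k) {I : Finset ℕ} (hI : I ⊆ block k) : (I.card : ℝ) / (k + 1) ≤ ∑ n ∈ I, pc n := by
  have h1 : ∑ _n ∈ I, 1 / ((k : ℝ) + 1) ≤ ∑ n ∈ I, pc n := sum_le_sum (fun n hn => le_pc_block hk (hI hn))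
  rw [sum_const, nsmul_eq_mul] at h1
  rw [div_eq_mul_one_div]
  exact h1

/-- The interval `(2 ^ k, 2 ^ k + y]` as a subset of the block. -/
theorem iv_two_pow {k : ℕ} {y : ℝ} (hy : 0 ≤ y) : iv ((2 : ℝ) ^ k) y = Ioc (2 ^ k) (2 ^ k + ⌊y⌋₊) := by
  rw [Pool.Agent.Q151.SI.iv_eq (by positivity) hy]
  have h1 : ⌊((2 : ℝ) ^ k)⌋₊ = 2 ^ k := by
    have : ((2 : ℝ) ^ k) = ((2 ^ k : ℕ) : ℝ) := by push_cast; rfl
    rw [this, Nat.floor_natCast]
  have h2 : ⌊((2 : ℝ) ^ k) + y⌋₊ = 2 ^ k + ⌊y⌋₊ := by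
    have : ((2 : ℝ) ^ k) = ((2 ^ k : ℕ) : ℝ) := by push_cast; rfl
    rw [this, add_comm, Nat.floor_add_natCast hy, add_comm]
  rw [h1, h2]

theorem Ioc_subset_block {k : ℕ} {y : ℝ} (hy : y < (2 : ℝ) ^ k) (hy0 : 0 ≤ y) : Ioc (2 ^ k) (2 ^ k + ⌊y⌋₊) ⊆ block k := by
  intro n hn
  rw [mem_Ioc] at hn
  rw [block, mem_Ico]
  have h1 : ⌊y⌋₊ < 2 ^ k := by
    rw [Nat.floor_lt hy0]
    push_cast
    exact hy
  have h2 : 2 ^ (k + 1) = 2 ^ k + 2 ^ k := by ring
  omega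

theorem not_all {δ : ℝ} {E F : Set ℕ → Prop} (h : SomeLevel δ F) (hEF : ∀ S, F S → ¬ E S) : ¬ AllLevel δ E := by
  intro hall
  obtain ⟨Ω, m, μ, hμ, A, hA, h1, h2⟩ := h
  have h3 := hall Ω μ A hA h1
  obtain ⟨ω, h4, h5⟩ := (h3.and h2).exists
  exact hEF _ h5 h4

end Pool.Agent.Q120.SI
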