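import Pool.Agent.Q120.SI.Build

/-!
# Project SI: main theorems
-/

set_option autoImplicit false

namespace Pool.Agent.Q120.SI

open Finset MeasureTheory Filter Pool.Agent.Q120.ET Pool.Agent.Q120.GM Pool.Agent.Q120.GE Pool.Agent.Q120.RZ Pool.Agent.Q120.SP
  Pool.Agent.Q120.LG
open scoped Topology

/-- For all `κ > 0` the number of `n` in the block `k` such that `cn S n (n ^ η)` differs from `n ^ η / log n` by more than the
proportion `κ` is at most `2 ^ ((β + o(1)) k)`. -/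
def Exc (η β : ℝ) (S : Set ℕ) : Prop :=
  ∀ κ : ℝ, 0 < κ → ∀ ε : ℝ, 0 < ε → ∀ᶠ k : ℕ in atTop, (nx S η κ k : ℝ) ≤ (2 : ℝ) ^ ((β + ε) * k)

theorem tendsto_two_pow_real : Tendsto (fun k : ℕ => (2 : ℝ) ^ k) atTop atTop :=
  tendsto_pow_atTop_atTop_of_one_lt (by norm_num)

theorem am_mono {d : ℕ → ℝ} {E F : Set ℕ → Prop} (h : AllModels d E) (hEF : ∀ S, E S → F S) : AllModels d F := by
  intro Ω _ μ _ A hA hD
  filter_upwards [h Ω μ A hA hD] with ω hω
  exact hEF _ hω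

theorem al_mono {δ : ℝ} {E F : Set ℕ → Prop} (h : AllLevel δ E) (hEF : ∀ S, E S → F S) : AllLevel δ F := by
  intro Ω _ μ _ A hA hD
  filter_upwards [h Ω μ A hA hD] with ω hω
  exact hEF _ hω

theorem sl_level {δ δ' : ℝ} {E : Set ℕ → Prop} (h : SomeLevel δ E) (hδ : δ ≤ δ') : SomeLevel δ' E := by
  obtain ⟨Ω, m, μ, hμ, A, hA, h1, h2⟩ := h
  refine ⟨Ω, m, μ, hμ, A, hA, fun ε hε => ?_, h2⟩
  filter_upwards [h1 ε hε] with k hk
  refine hk.trans (Real.rpow_le_rpow_of_exponent_le (by norm_num) ?_)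
  have : (0 : ℝ) ≤ k := Nat.cast_nonneg k
  nlinarith

theorem summable_of_meets (J : Jobs) {ε : ℝ} (hε1 : ε < 1) {d : ℕ → ℝ} (hd : ∀ k, 0 ≤ d k)
    (h : AllModels d (Meets ε)) : Summable (fun k : ℕ => d k * k / (2 : ℝ) ^ (ε * k)) := by
  by_contra hns
  refine not_allModels_of (some_empty J hε1 hd hns) (fun S hS hM => ?_) h
  have h1 : ∀ᶠ k : ℕ in atTop, 0 < cn S ((2 : ℝ) ^ k) (((2 : ℝ) ^ k) ^ ε) := tendsto_two_pow_real.eventually hM
  obtain ⟨k, hk1, hk2⟩ := (hS.and_eventually h1).exists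
  omega

/-- **(1) The exact threshold for intervals of length `x ^ ε`.** -/
theorem short_iff (J : Jobs) {ε : ℝ} (hε : 0 < ε) (hε1 : ε < 1) {d : ℕ → ℝ} (hd : ∀ k, 0 ≤ d k) :
    (AllModels d (Short ε) ↔ Summable (fun k : ℕ => d k * k / (2 : ℝ) ^ (ε * k))) ∧
    (AllModels d (Meets ε) ↔ Summable (fun k : ℕ => d k * k / (2 : ℝ) ^ (ε * k))) :=
  ⟨⟨fun h => summable_of_meets J hε1 hd (am_mono h (fun _ h => h.meets hε1)), all_short J hε hε1 hd⟩,
    ⟨summable_of_meets J hε1 hd, fun h => am_mono (all_short J hε hε1 hd h) (fun _ h => h.meets hε1)⟩⟩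

theorem summable_iff {d : ℕ → ℝ} (hd : ∀ k, 0 ≤ d k) : (∀ ε : ℝ, 0 < ε → ε < 1 → Summable (fun k : ℕ => d k * k / (2 : ℝ) ^ (ε * k))) ↔
    ∀ ε : ℝ, 0 < ε → ∀ᶠ k : ℕ in atTop, d k ≤ (2 : ℝ) ^ (ε * k) := by
  constructor
  · intro h ε hε
    have h1 := h (min ε (1 / 2)) (lt_min hε (by norm_num)) ((min_le_right _ _).trans_lt (by norm_num))
    filter_upwards [h1.tendsto_atTop_zero.eventually_lt_const one_pos, eventually_ge_atTop 1] with k hk hk1
    have hk0 : (1 : ℝ) ≤ k := by exact_mod_cast hk1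
    have hpos : (0 : ℝ) < (2 : ℝ) ^ (min ε (1 / 2) * k) := by positivity
    rw [div_lt_one hpos] at hk
    have h2 : (2 : ℝ) ^ (min ε (1 / 2) * k) ≤ (2 : ℝ) ^ (ε * k) := by
      apply Real.rpow_le_rpow_of_exponent_le (by norm_num)
      have := min_le_left ε (1 / 2)
      nlinarith
    have := hd k
    nlinarith
  · intro h ε hε _
    refine Summable.of_norm_bounded_eventually_nat (summable_pow_div (show (0 : ℝ) < ε / 2 by positivity) 1) ?_
    filter_upwards [h (ε / 2) (by positivity)] with k hk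
    have := hd k
    rw [Real.norm_eq_abs, abs_of_nonneg (by positivity), pow_one, div_le_div_iff₀ (by positivity) (by positivity)]
    have h1 : (2 : ℝ) ^ (ε * k) = (2 : ℝ) ^ (ε / 2 * k) * (2 : ℝ) ^ (ε / 2 * k) := by
      rw [← Real.rpow_add (by norm_num)]
      congr 1
      ring
    rw [h1]
    have h2 : (0 : ℝ) < (2 : ℝ) ^ (ε / 2 * k) := by positivity
    have h3 : (0 : ℝ) ≤ k := Nat.cast_nonneg k
    calc d k * k * (2 : ℝ) ^ (ε / 2 * k) ≤ (2 : ℝ) ^ (ε / 2 * k) * k * (2 : ℝ) ^ (ε / 2 * k) := by gcongr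
      _ = k * ((2 : ℝ) ^ (ε / 2 * k) * (2 : ℝ) ^ (ε / 2 * k)) := by ring

/-- **(2) The exact threshold for all `ε`.** -/
theorem short_all_iff (J : Jobs) {d : ℕ → ℝ} (hd : ∀ k, 0 ≤ d k) :
    (AllModels d (fun S => ∀ ε : ℝ, 0 < ε → ε < 1 → Short ε S) ↔ ∀ ε : ℝ, 0 < ε → ∀ᶠ k : ℕ in atTop, d k ≤ (2 : ℝ) ^ (ε * k)) ∧
    (AllModels d (fun S => ∀ ε : ℝ, 0 < ε → ε < 1 → Meets ε S) ↔ ∀ ε : ℝ, 0 < ε → ∀ᶠ k : ℕ in atTop, d k ≤ (2 : ℝ) ^ (ε * k)) := by
  have h1 : (∀ ε : ℝ, 0 < ε → ∀ᶠ k : ℕ in atTop, d k ≤ (2 : ℝ) ^ (ε * k)) → AllModels d (fun S => ∀ ε : ℝ, 0 < ε → ε < 1 → Short ε S) := by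
    intro h Ω _ μ _ A hA hD
    have h2 : ∀ n : ℕ, ∀ᵐ ω ∂μ, Short (1 / ((n : ℝ) + 2)) (A ω) := by
      intro n
      have h3 : 1 / ((n : ℝ) + 2) < 1 := by
        rw [div_lt_one (by positivity)]
        have : (0 : ℝ) ≤ n := Nat.cast_nonneg n
        linarith
      exact all_short J (by positivity) h3 hd ((summable_iff hd).2 h _ (by positivity) h3) Ω μ A hA hD
    filter_upwards [ae_all_iff.2 h2] with ω hω ε hε _
    obtain ⟨n, hn⟩ := exists_nat_one_div_lt hε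
    refine (hω n).mono (le_trans ?_ hn.le)
    exact one_div_le_one_div_of_le (by positivity) (by linarith)
  have h2 : AllModels d (fun S => ∀ ε : ℝ, 0 < ε → ε < 1 → Meets ε S) → ∀ ε : ℝ, 0 < ε → ∀ᶠ k : ℕ in atTop, d k ≤ (2 : ℝ) ^ (ε * k) := by
    intro h
    refine (summable_iff hd).1 (fun ε hε hε1 => ?_)
    exact summable_of_meets J hε1 hd (am_mono h (fun S hS => hS ε hε hε1))
  have h3 : AllModels d (fun S => ∀ ε : ℝ, 0 < ε → ε < 1 → Short ε S) → AllModels d (fun S => ∀ ε : ℝ, 0 < ε → ε < 1 → Meets ε S) :=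
    fun h => am_mono h (fun S hS ε hε hε1 => (hS ε hε hε1).meets hε1)
  exact ⟨⟨fun h => h2 (h3 h), h1⟩, ⟨h2, fun h => h3 (h1 h)⟩⟩

/-- **(3) The exact exponent of the fluctuations.** -/
theorem fluct_iff (J : Jobs) {δ η θ : ℝ} (hδ : 0 ≤ δ) (hη : 0 < η) (hη1 : η ≤ 1) (hθ : η / 2 ≤ θ) :
    AllLevel δ (Fluct η θ) ↔ (η + min η δ) / 2 ≤ θ := by
  constructor
  · intro h
    by_contra h1
    rw [not_le] at h1
    have hm : 0 < min η δ := by
      by_contra h2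
      rw [not_lt] at h2
      linarith
    exact not_all (some_fluct J hη1 hm h1) (fun _ h => h) h
  · exact all_fluct J hδ hη hη1

theorem all_short_level (J : Jobs) {δ η : ℝ} (hη : 0 < η) (hη1 : η < 1) (h : δ < η) : AllLevel δ (Short η) := by
  intro Ω _ μ _ A hA hD
  have hε : 0 < (η - δ) / 2 := by linarith
  refine all_short J hη hη1 (d := fun k => (2 : ℝ) ^ ((δ + (η - δ) / 2) * k)) (fun k => by positivity) ?_ Ω μ A hA (hD _ hε)
  refine (summable_pow_div hε 1).congr (fun k => ?_)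
  rw [pow_one, div_eq_div_iff (by positivity) (by positivity)]
  have h1 : (2 : ℝ) ^ (η * k) = (2 : ℝ) ^ ((δ + (η - δ) / 2) * k) * (2 : ℝ) ^ ((η - δ) / 2 * k) := by
    rw [← Real.rpow_add (by norm_num)]
    congr 1
    ring
  rw [h1]
  ring

/-- **(4) Levels for which the asymptotic formula holds.** -/
theorem level_iff (J : Jobs) {δ η : ℝ} (hη : 0 < η) (hη1 : η < 1) :
    (AllLevel δ (Short η) ↔ δ < η) ∧ (AllLevel δ (Meets η) ↔ δ < η) := by
  classical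
  have h1 : AllLevel δ (Meets η) → δ < η := by
    intro h
    by_contra h2
    rw [not_lt] at h2
    refine not_all (sl_level (some_exc J hη le_rfl hη1) h2) (fun S hS hM => ?_) h
    obtain ⟨x₀, hx₀⟩ := eventually_atTop.1 hM
    obtain ⟨k, hk1, hk2⟩ := (hS.and (tendsto_two_pow_real.eventually_ge_atTop x₀)).exists
    have h3 : n0 S η k = 0 := by
      unfold n0
      rw [card_eq_zero, filter_eq_empty_iff]
      intro n hn h4
      rw [block, mem_Ico] at hn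
      have h5 : (2 : ℝ) ^ k ≤ n := by exact_mod_cast hn.1
      have h6 := hx₀ n (hk2.trans h5)
      omega
    rw [h3, Nat.cast_zero] at hk1
    have : (0 : ℝ) < (2 : ℝ) ^ (η * k) := by positivity
    linarith
  have h2 : δ < η → AllLevel δ (Short η) := all_short_level J hη hη1
  have h3 : AllLevel δ (Short η) → AllLevel δ (Meets η) := fun h => al_mono h (fun _ h => h.meets hη1)
  exact ⟨⟨fun h => h1 (h3 h), h2⟩, ⟨h1, fun h => h3 (h2 h)⟩⟩

theorem n0_le_nx (S : Set ℕ) (η : ℝ) {κ : ℝ} (hκ : κ < 1) (k : ℕ) : n0 S η k ≤ nx S η κ k := by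
  classical
  unfold n0 nx
  refine card_le_card (fun n hn => ?_)
  rw [mem_filter] at hn ⊢
  refine ⟨hn.1, ?_⟩
  rw [hn.2, Nat.cast_zero, zero_mul, zero_div, zero_sub, abs_neg, abs_one]
  exact hκ

theorem exc_of_short {S : Set ℕ} {η : ℝ} (hη1 : η < 1) (h : Short η S) (β : ℝ) : Exc η β S := by
  classical
  intro κ hκ ε _
  obtain ⟨x₀, hx₀⟩ := eventually_atTop.1 (h κ hκ)
  filter_upwards [tendsto_two_pow_real.eventually_ge_atTop x₀] with k hk
  have h3 : nx S η κ k = 0 := by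
    unfold nx
    rw [card_eq_zero, filter_eq_empty_iff]
    intro n hn
    rw [block, mem_Ico] at hn
    have h5 : (2 : ℝ) ^ k ≤ n := by exact_mod_cast hn.1
    have h6 : (1 : ℝ) ≤ n := (one_le_pow₀ (by norm_num)).trans h5
    have h7 : (n : ℝ) ^ η ≤ n := by
      calc (n : ℝ) ^ η ≤ (n : ℝ) ^ (1 : ℝ) := Real.rpow_le_rpow_of_exponent_le h6 hη1.le
        _ = n := Real.rpow_one _
    exact not_lt.2 (hx₀ n (hk.trans h5) _ le_rfl h7)
  rw [h3, Nat.cast_zero]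
  positivity

/-- **(5) The exact exponent of the exceptional set.** -/
theorem exc_iff (J : Jobs) {δ η β : ℝ} (hδ : 0 ≤ δ) (hδ1 : δ < 1) (hη : 0 < η) (hη1 : η < 1) :
    (AllLevel δ (Exc η β) ↔ δ < η ∨ δ ≤ β) ∧
    (η ≤ δ → SomeLevel δ (fun S => ∀ᶠ k : ℕ in atTop, (2 : ℝ) ^ (δ * k) ≤ n0 S η k)) := by
  refine ⟨⟨?_, ?_⟩, fun h => some_exc J hη h hδ1⟩
  · intro h
    by_contra h1
    push Not at h1
    obtain ⟨h1, h2⟩ := h1
    refine not_all (some_exc J hη h1 hδ1) (fun S hS hM => ?_) h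
    have hε : 0 < (δ - β) / 2 := by linarith
    obtain ⟨k, hk1, hk2, hk3⟩ := (hS.and ((hM (1 / 2) (by norm_num) _ hε).and (eventually_ge_atTop 1))).exists
    have hk0 : (1 : ℝ) ≤ k := by exact_mod_cast hk3
    have h3 : (n0 S η k : ℝ) ≤ nx S η (1 / 2) k := by exact_mod_cast n0_le_nx S η (by norm_num) k
    have h4 : (2 : ℝ) ^ (δ * k) ≤ (2 : ℝ) ^ ((β + (δ - β) / 2) * k) := hk1.trans (h3.trans hk2)
    rw [Real.rpow_le_rpow_left_iff (by norm_num)] at h4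
    nlinarith
  · rintro (h | h)
    · exact al_mono (all_short_level J hη hη1 h) (fun S hS => exc_of_short hη1 hS β)
    · refine al_mono (all_nx J hδ hη hη1) (fun S hS κ hκ ε hε => ?_)
      filter_upwards [hS κ hκ ε hε] with k hk
      refine hk.trans (Real.rpow_le_rpow_of_exponent_le (by norm_num) ?_)
      have : (0 : ℝ) ≤ k := Nat.cast_nonneg k
      nlinarith

end Pool.Agent.Q120.SI
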