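import Pool.Agent.Q120.RZ.Stm
import Pool.Agent.Q120.SP.Gap

/-!
# Project SI: primes in short intervals, for ALL random sets near Cramér's model

`A` is ANY random set of integers, `D_k` the relative entropy (nats) of its law on the block `[2 ^ k, 2 ^ (k + 1))` with respect to
Cramér's model (`n` in the set independently with probability `pc n = 1 / log n`). Results of the project, assembled from the jobs:
(1) for `0 < ε < 1`: all `A` with `D_k ≤ d k` (`k` large) satisfy almost surely `|A ∩ (x, x + H]| ~ H / log x` uniformly for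
`x ^ ε ≤ H ≤ x` iff they all meet almost surely all `(x, x + x ^ ε]`, `x` large, iff `∑ d k * k / 2 ^ (ε k) < ∞`;
(2) the same for all `ε > 0` at once, iff the series converges for all `ε > 0`;
(3) if `D_k ≤ 2 ^ ((δ + o(1)) k)` the exact exponent of the fluctuations of `|A ∩ (x, x + H]|`, `H ≤ x ^ η`, is `(η + min η δ) / 2`;
(4) in the same class the number of `n ≤ x` such that `|A ∩ (n, n + n ^ η]|` is not asymptotically correct is at most `x ^ (δ + o(1))`, sharp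
if `η ≤ δ`, and zero for large `x` if `η > δ`.

Each job is a definition `J_… : Prop`; a theorem `t_… : J_…` is to be proved. The proofs are complete in the docstrings.
Tools: `GM.Basic` (`IsModel`, `indep_real`, `F_all`, `F_mem`), `GM.Indep` (`indep_many`, `bc`), `GM.Exists` (`isModel`), `Q112.LE.Expo`,
`Q120.ET.Law` (`real_event`, `event_bound`, `tr`, `lawOn`, `relEntropy`), `Q120.ET.Construct` (`blockLaw`), `Q111.GE.LAW` (`t_LAW`, `t_ENT`),
`Q299.RZ.Tail` (`t_TAIL`), `Q299.RZ.Kl` (`t_KL`), `Q299.RZ.Blk` (`ev_exp`, …).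
-/

set_option autoImplicit false

namespace Pool.Agent.Q120.SI

open Finset MeasureTheory Filter Pool.Agent.Q120.ET Pool.Agent.Q120.GM Pool.Agent.Q120.GE Pool.Agent.Q120.RZ
open scoped Topology

open Classical in
/-- The integers in `(x, x + H]`. -/
noncomputable def iv (x H : ℝ) : Finset ℕ := (range (⌊x + H⌋₊ + 1)).filter (fun n : ℕ => x < n ∧ (n : ℝ) ≤ x + H)

/-- The number of elements of `S` in `(x, x + H]`. -/
noncomputable def cn (S : Set ℕ) (x H : ℝ) : ℕ := num' S (iv x H)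

/-- Q1 for one `ε`: `cn S x H ~ H / log x`, uniformly for `x ^ ε ≤ H ≤ x`. -/
def Short (ε : ℝ) (S : Set ℕ) : Prop :=
  ∀ κ : ℝ, 0 < κ → ∀ᶠ x : ℝ in atTop, ∀ H : ℝ, x ^ ε ≤ H → H ≤ x → |cn S x H * Real.log x / H - 1| ≤ κ

/-- All `(x, x + x ^ ε]` with `x` large meet `S`. -/
def Meets (ε : ℝ) (S : Set ℕ) : Prop := ∀ᶠ x : ℝ in atTop, 0 < cn S x (x ^ ε)

/-- The fluctuations in the intervals with `H ≤ x ^ η` are at most `x ^ (θ + o(1))`. -/
def Fluct (η θ : ℝ) (S : Set ℕ) : Prop := ∀ ε : ℝ, 0 < ε → ∃ C : ℝ, ∀ x H : ℝ, 1 ≤ x → 0 ≤ H → H ≤ x ^ η →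
  |(cn S x H : ℝ) - ∑ n ∈ iv x H, pc n| ≤ C * x ^ (θ + ε)

open Classical in
/-- The number of `n` in the block such that `cn S n (n ^ η)` differs from `n ^ η / log n` by more than the proportion `κ`. -/
noncomputable def nx (S : Set ℕ) (η κ : ℝ) (k : ℕ) : ℕ :=
  ((block k).filter (fun n : ℕ => κ < |cn S n ((n : ℝ) ^ η) * Real.log n / (n : ℝ) ^ η - 1|)).card

open Classical in
/-- The number of `n` in the block such that `S` has no element in `(n, n + n ^ η]`. -/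
noncomputable def n0 (S : Set ℕ) (η : ℝ) (k : ℕ) : ℕ := ((block k).filter (fun n : ℕ => cn S n ((n : ℝ) ^ η) = 0)).card

/-- The cells of length `g` of a block (the last one may be shorter, the following ones are empty). -/
def cell (k g j : ℕ) : Finset ℕ := Ico (2 ^ k + j * g) (min (2 ^ k + (j + 1) * g) (2 ^ (k + 1)))

/-- The cell contains too few or too many elements. -/
def Badc (S : Set ℕ) (k g : ℕ) (κ : ℝ) (j : ℕ) : Prop :=
  κ * g / k < |(num' S (cell k g j) : ℝ) - ∑ n ∈ cell k g j, pc n|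

open Classical in
/-- The number of these cells. -/
noncomputable def nbad (S : Set ℕ) (k g : ℕ) (κ : ℝ) : ℕ := ((range (2 ^ k)).filter (fun j => Badc S k g κ j)).card

/-- The length of the cells. -/
noncomputable def gl (ε κ : ℝ) (k : ℕ) : ℕ := ⌈κ * (2 : ℝ) ^ (ε * k)⌉₊

/-- **Job ENTB.** An event which depends on `A ∩ block k`.
Proof. As `Pool.Agent.Q111.GE.t_ENT` with `B = block k` (`three_le_of_mem_block`) and `event_bound` with `q = exp (-2 u)`. -/
def J_ENTB : Prop := ∀ (k : ℕ), 2 ≤ k → ∀ (F : Finset ℕ → Prop) [DecidablePred F] (u : ℝ), 0 < u →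
  (∀ (Ω : Type) [MeasurableSpace Ω] (μ : Measure Ω) [IsProbabilityMeasure μ] (A : Ω → Set ℕ), IsModel μ pc A →
    μ.real {ω | F (tr A (block k) ω)} ≤ Real.exp (-(2 * u))) →
  ∀ (Ω : Type) [MeasurableSpace Ω] (μ : Measure Ω) [IsProbabilityMeasure μ] (A : Ω → Set ℕ), IsRandomSet A →
    μ.real {ω | F (tr A (block k) ω)} ≤ (relEntropy μ A (block k) + Real.exp (-u)) / u

/-- **Job CEL** (uses TAIL). Many bad cells.
Proof. `pc n ≤ 2 / k` for `n ≥ 2 ^ k`, `k ≥ 2` (`log 2 ≥ 1 / 2`). One cell: `J_TAIL` with `I` the cell (at most `g` elements), `V = 2 g / k`,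
`t = κ g / k ≤ V`: probability at most `2 exp (-t ^ 2 / (4 (V + t))) ≤ 2 exp (-κ ^ 2 g / (12 k))`. For a set `J` of `m` cells the events
are independent (`indep_many`, the cells are disjoint), so all of them are bad with probability at most
`(2 exp (-κ ^ 2 g / (12 k))) ^ m`; there are at most `(2 ^ k) ^ m` sets `J` (`nbad ≥ m` iff some `J` of `m` bad cells exists).
`(2 ^ (k + 1) exp (-κ ^ 2 g / (12 k))) ^ m ≤ exp (-κ ^ 2 g m / (24 k))` because `(k + 1) log 2 ≤ k + 1 ≤ κ ^ 2 g / (24 k)`. -/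
def J_CEL : Prop := J_TAIL → ∀ (k g m : ℕ) (κ : ℝ), 2 ≤ k → 0 < κ → κ ≤ 1 → 24 * k * (k + 1) ≤ κ ^ 2 * g → 1 ≤ m →
  ∀ (Ω : Type) [MeasurableSpace Ω] (μ : Measure Ω) [IsProbabilityMeasure μ] (A : Ω → Set ℕ), IsModel μ pc A →
    μ.real {ω | m ≤ nbad (A ω) k g κ} ≤ Real.exp (-(κ ^ 2 * g * m / (24 * k)))

/-- **Job DET.** From the cells to the intervals (deterministic).
Proof. `κ' = κ / 100` or smaller. Let `I = iv x H`, `g = gl ε κ' k`, `g' = gl ε κ' (k + 1)`; for large `k` both are at most `4 κ' H`, as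
`H ≥ x ^ ε ≥ 2 ^ (ε k)` and `2 ^ (ε (k + 1)) ≤ 2 * 2 ^ (ε k)`. As `x + H ≤ 2 x < 2 ^ (k + 2)`, `I` is covered by the cells of the
blocks `k` and `k + 1` that meet it; all these but at most two (those which contain the smallest and the largest element of `I`) are contained in
`I`, and their number is at most `H / g + 3` and `H / g' + 3`. All are not bad, so
`|num' S I - ∑ n ∈ I, pc n| ≤ ∑ (κ' g / k over the cells that meet I) + 2 * (the two partial cells: num' and ∑ pc at most 3 g' / k each)`,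
at most `C κ' H / k` with an absolute `C`. Finally `|∑ n ∈ I, pc n - H / log x| ≤ 2 + 2 H / k ^ 2` (`log x ≤ log n ≤ log x + log 2`, the number
of elements of `I` is between `H - 1` and `H + 1`, `1 / log x - 1 / (log x + log 2) ≤ log 2 / log ^ 2 x`), `log x ≥ k log 2`, and
`H ≥ 2 ^ (ε k)` is large compared with `k`. -/
def J_DET : Prop := ∀ ε κ : ℝ, 0 < ε → ε < 1 → 0 < κ → κ ≤ 1 → ∃ κ' : ℝ, 0 < κ' ∧ κ' ≤ 1 ∧ ∃ K : ℕ, ∀ (S : Set ℕ) (k : ℕ), K ≤ k →
  ∀ x H : ℝ, (2 : ℝ) ^ k ≤ x → x < (2 : ℝ) ^ (k + 1) → x ^ ε ≤ H → H ≤ x →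
    (∀ i : ℕ, i = k ∨ i = k + 1 → ∀ j : ℕ, (∃ n ∈ cell i (gl ε κ' i) j, n ∈ iv x H) → ¬ Badc S i (gl ε κ' i) κ' j) →
      |cn S x H * Real.log x / H - 1| ≤ κ

/-- **Job CNT** (uses DET). The number of bad `n`.
Proof. `κ'`, `K` from `DET` with `ε = η` (and `min κ 1`). If `n` in block `k` is counted by `nx` then by DET (`x = n`, `H = n ^ η ≤ n`) some bad
cell of block `k` or `k + 1` meets `iv n (n ^ η)`. A nonempty cell has `j < 2 ^ i`, as `2 ^ i + j g < 2 ^ (i + 1)`. A given cell (of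
length at most `g'`) meets `iv n (n ^ η)` for at most `g' + 2 ^ (η (k + 1)) + 1` integers `n < 2 ^ (k + 1)`, at most `10 * 2 ^ (η k)`
(`κ' ≤ 1`). -/
def J_CNT : Prop := J_DET → ∀ η κ : ℝ, 0 < η → η < 1 → 0 < κ → ∃ κ' : ℝ, 0 < κ' ∧ κ' ≤ 1 ∧ ∃ K : ℕ, ∀ (S : Set ℕ) (k : ℕ), K ≤ k →
  (nx S η κ k : ℝ) ≤ 10 * (2 : ℝ) ^ (η * k) * (nbad S k (gl η κ' k) κ' + nbad S (k + 1) (gl η κ' (k + 1)) κ')

/-- **Job UPB** (uses TAIL). All intervals of a block.
Proof. Let `w = 2 ^ (β k)`, `h = b - a ≤ 2 ^ k`. If `h ≤ w` the deviation is at most `h ≤ sqrt (h w)` (`num' ≤ h` and `0 ≤ ∑ pc n ≤ h`), so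
nothing happens. If `h > w`: `J_TAIL` with `V = h` (`pc n ≤ 1`) and `t = sqrt (h w) ≤ h`: at most `2 exp (-(h w) / (8 h)) = 2 exp (-w / 8)`.
There are at most `4 ^ (k + 1)` pairs, and `2 * 4 ^ (k + 1) * exp (-w / 8) ≤ exp (-w / 16)` for large `k`. -/
def J_UPB : Prop := J_TAIL → ∀ β : ℝ, 0 < β → ∀ᶠ k : ℕ in atTop,
  ∀ (Ω : Type) [MeasurableSpace Ω] (μ : Measure Ω) [IsProbabilityMeasure μ] (A : Ω → Set ℕ), IsModel μ pc A →
    μ.real {ω | ∃ a b : ℕ, 2 ^ k ≤ a + 1 ∧ a ≤ b ∧ b < 2 ^ (k + 1) ∧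
      Real.sqrt (((b : ℝ) - a) * (2 : ℝ) ^ (β * k)) < |(num' (A ω) (Ioc a b) : ℝ) - ∑ n ∈ Ioc a b, pc n|} ≤
        Real.exp (-((2 : ℝ) ^ (β * k) / 16))

/-- **Job DETB.** From the intervals of a block to all intervals (deterministic).
Proof. Let `K` be such that the hypothesis holds for `k ≥ K` with `ε`. Let `2 ^ k ≤ x < 2 ^ (k + 1)`. `iv x H = Ioc ⌊x⌋₊ ⌊x + H⌋₊`, and
`x + H ≤ 2 x < 2 ^ (k + 2)`. If `k ≥ K` it is the union of two intervals, one in block `k` and one in block `k + 1` (either can be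
empty), each with at most `H + 1 ≤ 2 H` elements: each deviation is at most `sqrt (2 H * 2 ^ ((δ + ε) (k + 1)))`, at most
`C sqrt (H x ^ (δ + ε))`. If `k < K` the deviation is at most `H + 1 ≤ 2 x ≤ 2 ^ (K + 1)`, while `H x ^ (δ + ε) ≥ 1`. -/
def J_DETB : Prop := ∀ (S : Set ℕ) (δ : ℝ), 0 ≤ δ → (∀ ε : ℝ, 0 < ε → ∀ᶠ k : ℕ in atTop, ∀ a b : ℕ, 2 ^ k ≤ a + 1 → a ≤ b → b < 2 ^ (k + 1) →
    |(num' S (Ioc a b) : ℝ) - ∑ n ∈ Ioc a b, pc n| ≤ Real.sqrt (((b : ℝ) - a) * (2 : ℝ) ^ ((δ + ε) * k))) →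
  ∀ ε : ℝ, 0 < ε → ∃ C : ℝ, 0 ≤ C ∧ ∀ x H : ℝ, 1 ≤ x → 1 ≤ H → H ≤ x →
    |(cn S x H : ℝ) - ∑ n ∈ iv x H, pc n| ≤ C * Real.sqrt (H * x ^ (δ + ε))

/-- **Job MIXB.** The general construction with independent blocks.
Proof. `Ω = ℕ → Finset ℕ`, `μ = blockLaw p`, `A = blockSet` (`Q120.ET.Construct`), with `p k T = (1 - q k) * cramerOn (block k) T + q k * P k T` for
`k ≥ 2` and the point mass at `∅` for `k < 2` (`sum_cramerOn`, `cramerOn_pos`). `relEntropy_blockLaw`, and the convexity of `x log x`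
(`Real.convexOn_mul_log`) between `1` and `r = P k T / cramerOn (block k) T`:
`(1 - q + q r) log (1 - q + q r) ≤ q * (r log r)`, multiplied by `cramerOn` and summed. The events `tr A (block k) ω ∈ E k`
are independent (`indep_blockLaw`, `mem_blockSet`) of probability at least `q k * ∑ T ∈ E k, P k T` (`blockLaw_pre`, `blockMeasure_apply`):
second Borel-Cantelli lemma (`ProbabilityTheory.measure_limsup_eq_one`; a sum of non summable nonnegative numbers is `∞` in `ENNReal`). If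
`q = 1` the complements have the probabilities `∑ T ∉ E k, P k T` for `k ≥ 2`: `Pool.Agent.Q120.GM.bc`. -/
def J_MIXB : Prop := ∀ (P : ℕ → Finset ℕ → ℝ) (q : ℕ → ℝ) (E : ℕ → Set (Finset ℕ)) [∀ k, DecidablePred (fun T => T ∈ E k)],
  (∀ k, 2 ≤ k → (∀ T ∈ (block k).powerset, 0 ≤ P k T) ∧ ∑ T ∈ (block k).powerset, P k T = 1) → (∀ k, 0 ≤ q k ∧ q k ≤ 1) →
  ∃ (Ω : Type) (_ : MeasurableSpace Ω) (μ : Measure Ω) (_ : IsProbabilityMeasure μ) (A : Ω → Set ℕ), IsRandomSet A ∧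
    (∀ k, 2 ≤ k → relEntropy μ A (block k) ≤
      q k * ∑ T ∈ (block k).powerset, P k T * Real.log (P k T / cramerOn (block k) T)) ∧
    (¬ Summable (fun k => q k * ∑ T ∈ (block k).powerset with T ∈ E k, P k T) →
      ∀ᵐ ω ∂μ, ∃ᶠ k : ℕ in atTop, tr A (block k) ω ∈ E k) ∧
    ((∀ k, q k = 1) → Summable (fun k => ∑ T ∈ (block k).powerset with ¬ T ∈ E k, P k T) →
      ∀ᵐ ω ∂μ, ∀ᶠ k : ℕ in atTop, tr A (block k) ω ∈ E k)

/-- **Job TLT** (uses TAIL and KL). The tilted law of a block.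
Proof. Let `d n = s` for `n ∈ I`, `0` otherwise; `p n = (1 - d n) * pc n` is in `[0, 1]`; a model `A` with these probabilities exists
(`GM.Exists.isModel`), `P T = lawOn μ A (block k) T`. Sum `1`: `sum_law`. Relative entropy: `J_KL` with `B = block k` (the sum reduces to
`n ∈ I`). Deviation: `real_event` for `B = block k`; `(I ∩ tr A (block k) ω).card = num' (A ω) I` as `I ⊆ block k`; let
`M = ∑ n ∈ I, pc n`. If `s M = 0` the right hand side is `2` and the left hand side at most `1`. Otherwise `J_TAIL` with `V = M` and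
`t = s M / 2`: the event implies `num' > (1 - s) M + s M / 2`, and `∑ n ∈ I, p n = (1 - s) M`; the bound is
`2 exp (-(s M / 2) ^ 2 / (4 (M + s M / 2))) ≤ 2 exp (-s ^ 2 M / 24)`. The last two: the sums are the probabilities that `A ∩ J` is empty,
`∏ n ∈ J, (1 - p n)` (`J_LAW`, `t_LAW`: the law on `J` at `∅`, via `real_event` or directly by independence), and for `s = 1`, `n ∈ I`: `p n = 0`, so
`P T ≤ μ.real {n ∈ A} = 0` if `n ∈ T`. -/
def J_TLT : Prop := J_TAIL → J_KL → ∀ k : ℕ, 2 ≤ k → ∀ I : Finset ℕ, I ⊆ block k → ∀ s : ℝ, 0 ≤ s → s ≤ 1 →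
  ∃ P : Finset ℕ → ℝ, (∀ T ∈ (block k).powerset, 0 ≤ P T) ∧ ∑ T ∈ (block k).powerset, P T = 1 ∧
    ∑ T ∈ (block k).powerset, P T * Real.log (P T / cramerOn (block k) T) ≤ 12 * (s ^ 2 * ∑ n ∈ I, pc n) ∧
    (∑ T ∈ (block k).powerset with (1 - s / 2) * ∑ n ∈ I, pc n < ((I ∩ T).card : ℝ), P T) ≤
      2 * Real.exp (-(s ^ 2 * (∑ n ∈ I, pc n) / 24)) ∧
    (∀ J : Finset ℕ, J ⊆ block k → Disjoint J I → ∑ T ∈ (block k).powerset with Disjoint T J, P T = ∏ n ∈ J, (1 - pc n)) ∧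
    (s = 1 → ∀ T ∈ (block k).powerset, P T ≠ 0 → Disjoint T I)

end Pool.Agent.Q120.SI
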