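import Pool.Agent.Q120.LG.Stm
import Pool.Agent.Q151.SI.Detb
import Pool.Agent.Q151.SI.Cnt
import Pool.Agent.Q151.SI.Upb

/-!
# Project SI: assembly, upper bounds
-/

set_option autoImplicit false

namespace Pool.Agent.Q120.SI

open Finset MeasureTheory Filter Pool.Agent.Q120.ET Pool.Agent.Q120.GM Pool.Agent.Q120.GE Pool.Agent.Q120.RZ Pool.Agent.Q120.SP
  Pool.Agent.Q120.LG
open scoped Topology

/-- The jobs. -/
structure Jobs : Prop where
  tail : J_TAIL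
  kl : J_KL
  entb : J_ENTB
  cel : J_CEL
  det : J_DET
  cnt : J_CNT
  upb : J_UPB
  detb : J_DETB
  mixb : J_MIXB
  tlt : J_TLT

theorem rpow_mul_nat (c : ℝ) (k : ℕ) : (2 : ℝ) ^ (c * k) = ((2 : ℝ) ^ c) ^ k := by
  rw [Real.rpow_mul (by norm_num), Real.rpow_natCast]

theorem summable_pow_div {c : ℝ} (hc : 0 < c) (m : ℕ) : Summable (fun k : ℕ => (k : ℝ) ^ m / (2 : ℝ) ^ (c * k)) := by
  have hb : 1 < (2 : ℝ) ^ c := Real.one_lt_rpow (by norm_num) hc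
  have h1 := summable_pow_mul_geometric_of_norm_lt_one (R := ℝ) m (r := ((2 : ℝ) ^ c)⁻¹) (by
    rw [Real.norm_eq_abs, abs_of_pos (by positivity)]
    exact inv_lt_one_of_one_lt₀ hb)
  refine h1.congr (fun k => ?_)
  rw [rpow_mul_nat, inv_pow, div_eq_mul_inv]

theorem ev_pow_le {c : ℝ} (hc : 0 < c) (m : ℕ) (M : ℝ) : ∀ᶠ k : ℕ in atTop, M * (k : ℝ) ^ m ≤ (2 : ℝ) ^ (c * k) := by
  have hb : 1 < (2 : ℝ) ^ c := Real.one_lt_rpow (by norm_num) hc
  have h1 := (tendsto_pow_const_div_const_pow_of_one_lt m hb).const_mul M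
  rw [mul_zero] at h1
  filter_upwards [h1.eventually_lt_const (show (0 : ℝ) < 1 by norm_num)] with k hk
  have hpos : (0 : ℝ) < ((2 : ℝ) ^ c) ^ k := by positivity
  rw [rpow_mul_nat]
  rw [← mul_div_assoc, div_lt_one hpos] at hk
  exact hk.le

theorem cell_subset (k g j : ℕ) : cell k g j ⊆ block k := by
  intro n hn
  unfold cell at hn
  rw [mem_Ico, lt_min_iff] at hn
  rw [block, mem_Ico]
  exact ⟨(Nat.le_add_right _ _).trans hn.1, hn.2.2⟩

theorem num_tr {Ω : Type*} [MeasurableSpace Ω] (A : Ω → Set ℕ) {B I : Finset ℕ} (hI : I ⊆ B) (ω : Ω) :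
    num' (↑(tr A B ω)) I = num' (A ω) I := by
  classical
  obtain ⟨S, hS⟩ : ∃ S : Set ℕ, S = ↑(tr A B ω) := ⟨_, rfl⟩
  rw [← hS]
  have h0 : ∀ n ∈ I, n ∈ S ↔ n ∈ A ω := by
    intro n hn
    rw [hS, mem_coe, mem_tr]
    exact ⟨fun h => h.2, fun h => ⟨hI hn, h⟩⟩
  unfold num'
  congr 1
  exact filter_congr h0

theorem nbad_tr {Ω : Type*} [MeasurableSpace Ω] (A : Ω → Set ℕ) (k g : ℕ) (κ : ℝ) (ω : Ω) :
    nbad (↑(tr A (block k) ω)) k g κ = nbad (A ω) k g κ := by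
  classical
  unfold nbad
  congr 1
  ext j
  rw [mem_filter, mem_filter]
  unfold Badc
  rw [num_tr A (cell_subset k g j)]

variable {Ω : Type} [MeasurableSpace Ω] {μ : Measure Ω} [IsProbabilityMeasure μ] {A : Ω → Set ℕ}

theorem prob_nbad (J : Jobs) (hA : IsRandomSet A) {k g m : ℕ} {κ : ℝ} (hk : 2 ≤ k) (hκ : 0 < κ) (hκ1 : κ ≤ 1)
    (h : 24 * k * (k + 1) ≤ κ ^ 2 * g) (hm : 1 ≤ m) :
    μ.real {ω | m ≤ nbad (A ω) k g κ} ≤ (relEntropy μ A (block k) + 1) / (κ ^ 2 * g * m / (48 * k)) := by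
  classical
  have hk0 : (0 : ℝ) < k := by
    have : 0 < k := by omega
    exact_mod_cast this
  have hm0 : (0 : ℝ) < m := by exact_mod_cast hm
  have hg0 : 0 < κ ^ 2 * g := lt_of_lt_of_le (by positivity) h
  have hu : 0 < κ ^ 2 * g * m / (48 * k) := by positivity
  have h1 := J.entb k hk (fun T => m ≤ nbad (↑T) k g κ) (κ ^ 2 * g * m / (48 * k)) hu (by
    intro Ω' _ μ' _ A' hA'
    have h2 := J.cel J.tail k g m κ hk hκ hκ1 h hm Ω' μ' A' hA'
    have h3 : {ω | m ≤ nbad (↑(tr A' (block k) ω)) k g κ} = {ω | m ≤ nbad (A' ω) k g κ} := by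
      ext ω
      simp only [Set.mem_ofPred_eq]
      rw [nbad_tr]
    rw [h3]
    refine h2.trans (le_of_eq ?_)
    congr 1
    ring) Ω μ A hA
  have h3 : {ω | m ≤ nbad (↑(tr A (block k) ω)) k g κ} = {ω | m ≤ nbad (A ω) k g κ} := by
    ext ω
    simp only [Set.mem_ofPred_eq]
    rw [nbad_tr]
  rw [h3] at h1
  refine h1.trans (div_le_div_of_nonneg_right ?_ hu.le)
  have : Real.exp (-(κ ^ 2 * g * m / (48 * k))) ≤ 1 := by
    rw [Real.exp_le_one_iff]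
    linarith
  linarith

theorem le_gl {ε κ : ℝ} (k : ℕ) : κ * (2 : ℝ) ^ (ε * k) ≤ gl ε κ k := Nat.le_ceil _

/-- Few bad cells. -/
theorem ae_nbad (J : Jobs) (hA : IsRandomSet A) {ε κ : ℝ} (hε : 0 < ε) (hκ : 0 < κ) (hκ1 : κ ≤ 1) {D : ℕ → ℝ} (hD0 : ∀ k, 0 ≤ D k)
    (hD : ∀ᶠ k : ℕ in atTop, relEntropy μ A (block k) ≤ D k) {m : ℕ → ℕ} (hm : ∀ k, 1 ≤ m k)
    (hs : Summable (fun k : ℕ => (D k + 1) * k / ((2 : ℝ) ^ (ε * k) * m k))) :
    ∀ᵐ ω ∂μ, ∀ᶠ k : ℕ in atTop, nbad (A ω) k (gl ε κ k) κ < m k := by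
  have h1 := bc (μ := μ) (B := fun k => {ω | m k ≤ nbad (A ω) k (gl ε κ k) κ})
    (g := fun k => 48 / κ ^ 3 * ((D k + 1) * k / ((2 : ℝ) ^ (ε * k) * m k))) (hs.mul_left _) (by
    filter_upwards [hD, eventually_ge_atTop 2, ev_pow_le hε 2 (48 / κ ^ 3)] with k hk hk2 hk3
    have hk0 : (0 : ℝ) < k := by
      have : 0 < k := by omega
      exact_mod_cast this
    have hk1 : (1 : ℝ) ≤ k := by
      have : 1 ≤ k := by omega
      exact_mod_cast this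
    have hm0 : (0 : ℝ) < m k := by exact_mod_cast hm k
    have hg := le_gl (ε := ε) (κ := κ) k
    have h2 : 24 * k * (k + 1) ≤ κ ^ 2 * (gl ε κ k : ℝ) := by
      have h3 : 48 * (k : ℝ) ^ 2 ≤ κ ^ 3 * (2 : ℝ) ^ (ε * k) := by
        rw [div_mul_eq_mul_div, div_le_iff₀ (by positivity)] at hk3
        linarith
      have h4 : κ ^ 2 * (κ * (2 : ℝ) ^ (ε * k)) ≤ κ ^ 2 * (gl ε κ k : ℝ) := mul_le_mul_of_nonneg_left hg (by positivity)
      nlinarith
    refine (prob_nbad J hA hk2 hκ hκ1 h2 (hm k)).trans ?_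
    have hpow : (0 : ℝ) < (2 : ℝ) ^ (ε * k) := by positivity
    have hg0 : (0 : ℝ) < gl ε κ k := lt_of_lt_of_le (by positivity) hg
    rw [div_div_eq_mul_div, div_mul_div_comm, div_le_div_iff₀ (by positivity) (by positivity)]
    have h5 : (relEntropy μ A (block k) + 1) * (48 * k) ≤ (D k + 1) * (48 * k) :=
      mul_le_mul_of_nonneg_right (by linarith) (by positivity)
    have h6 : κ ^ 3 * ((2 : ℝ) ^ (ε * k) * m k) ≤ κ ^ 2 * (gl ε κ k : ℝ) * m k := by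
      have := mul_le_mul_of_nonneg_right (mul_le_mul_of_nonneg_left hg (show (0 : ℝ) ≤ κ ^ 2 by positivity)) hm0.le
      nlinarith
    calc (relEntropy μ A (block k) + 1) * (48 * k) * (κ ^ 3 * ((2 : ℝ) ^ (ε * k) * m k))
        ≤ (D k + 1) * (48 * k) * (κ ^ 3 * ((2 : ℝ) ^ (ε * k) * m k)) := mul_le_mul_of_nonneg_right h5 (by positivity)
      _ ≤ (D k + 1) * (48 * k) * (κ ^ 2 * (gl ε κ k : ℝ) * m k) := by
          refine mul_le_mul_of_nonneg_left h6 ?_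
          have := hD0 k
          positivity
      _ = 48 * ((D k + 1) * k) * (κ ^ 2 * (gl ε κ k : ℝ) * m k) := by ring)
  filter_upwards [h1] with ω hω
  filter_upwards [hω] with k hk
  exact not_le.1 hk

/-- No bad cells imply the asymptotic formula. -/
theorem short_one (J : Jobs) {ε κ : ℝ} (hε : 0 < ε) (hε1 : ε < 1) (hκ : 0 < κ) : ∃ κ' : ℝ, 0 < κ' ∧ κ' ≤ 1 ∧
    ∀ S : Set ℕ, (∀ᶠ k : ℕ in atTop, nbad S k (gl ε κ' k) κ' < 1) →
      ∀ᶠ x : ℝ in atTop, ∀ H : ℝ, x ^ ε ≤ H → H ≤ x → |cn S x H * Real.log x / H - 1| ≤ κ := by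
  classical
  obtain ⟨κ', h1, h2, K, hK⟩ := J.det ε (min κ 1) hε hε1 (lt_min hκ one_pos) (min_le_right _ _)
  refine ⟨κ', h1, h2, fun S hS => ?_⟩
  obtain ⟨K', hK'⟩ := eventually_atTop.1 hS
  filter_upwards [eventually_ge_atTop ((2 : ℝ) ^ (max K K'))] with x hx H hH1 hH2
  have hx1 : (1 : ℝ) ≤ x := (one_le_pow₀ (by norm_num)).trans hx
  obtain ⟨k, hk⟩ : ∃ k, k = Nat.log 2 ⌊x⌋₊ := ⟨_, rfl⟩
  have hfl : 2 ^ (max K K') ≤ ⌊x⌋₊ := Nat.le_floor (by exact_mod_cast hx)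
  have hfl0 : ⌊x⌋₊ ≠ 0 := by
    have : 0 < 2 ^ (max K K') := by positivity
    omega
  have hk1 : max K K' ≤ k := by
    rw [hk]
    exact Nat.le_log_of_pow_le (by norm_num) hfl
  have hk2 : (2 : ℝ) ^ k ≤ x := by
    have h3 : 2 ^ k ≤ ⌊x⌋₊ := by rw [hk]; exact Nat.pow_log_le_self 2 hfl0
    have h4 : ((2 ^ k : ℕ) : ℝ) ≤ (⌊x⌋₊ : ℝ) := by exact_mod_cast h3
    push_cast at h4
    exact h4.trans (Nat.floor_le (by linarith))
  have hk3 : x < (2 : ℝ) ^ (k + 1) := by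
    have h3 : ⌊x⌋₊ < 2 ^ (k + 1) := by rw [hk]; exact Nat.lt_pow_succ_log_self (by norm_num) _
    have h4 := (Nat.floor_lt' (by positivity)).1 h3
    push_cast at h4
    exact h4
  refine (hK S k ((le_max_left _ _).trans hk1) x H hk2 hk3 hH1 hH2 ?_).trans (min_le_left _ _)
  intro i hi j ⟨n, hn, _⟩ hbad
  have hi' : K' ≤ i := by rcases hi with rfl | rfl <;> omega
  have h3 := hK' i hi'
  have h4 : nbad S i (gl ε κ' i) κ' = 0 := by omega
  unfold nbad at h4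
  rw [card_eq_zero] at h4
  have h5 : j ∈ (range (2 ^ i)).filter (fun j => Badc S i (gl ε κ' i) κ' j) := by
    rw [mem_filter, mem_range]
    refine ⟨?_, hbad⟩
    unfold cell at hn
    rw [mem_Ico, lt_min_iff] at hn
    have h6 : 1 ≤ gl ε κ' i := Pool.Agent.Q151.SI.gl_pos h1 i
    have h7 : 2 ^ (i + 1) = 2 ^ i + 2 ^ i := by ring
    have h8 : j * 1 ≤ j * gl ε κ' i := Nat.mul_le_mul_left _ h6
    omega
  rw [h4] at h5
  exact absurd h5 (notMem_empty _)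

/-- **Upper bound for the asymptotic formula.** -/
theorem all_short (J : Jobs) {ε : ℝ} (hε : 0 < ε) (hε1 : ε < 1) {d : ℕ → ℝ} (hd : ∀ k, 0 ≤ d k)
    (hs : Summable (fun k : ℕ => d k * k / (2 : ℝ) ^ (ε * k))) : AllModels d (Short ε) := by
  intro Ω _ μ _ A hA hD
  have hs' : Summable (fun k : ℕ => (d k + 1) * k / ((2 : ℝ) ^ (ε * k) * ((1 : ℕ) : ℝ))) := by
    refine (hs.add (summable_pow_div hε 1)).congr (fun k => ?_)
    rw [Nat.cast_one, mul_one, pow_one, ← add_div]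
    congr 1
    ring
  have h1 : ∀ n : ℕ, ∀ᵐ ω ∂μ, ∀ᶠ x : ℝ in atTop, ∀ H : ℝ, x ^ ε ≤ H → H ≤ x →
      |cn (A ω) x H * Real.log x / H - 1| ≤ 1 / ((n : ℝ) + 1) := by
    intro n
    obtain ⟨κ', h2, h3, h4⟩ := short_one J hε hε1 (show (0 : ℝ) < 1 / ((n : ℝ) + 1) by positivity)
    filter_upwards [ae_nbad J hA hε h2 h3 hd hD (m := fun _ => 1) (fun _ => le_rfl) hs'] with ω hω
    exact h4 _ hω
  filter_upwards [ae_all_iff.2 h1] with ω hω κ hκ
  obtain ⟨n, hn⟩ := exists_nat_one_div_lt hκ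
  filter_upwards [hω n] with x hx H hH1 hH2
  exact (hx H hH1 hH2).trans hn.le

theorem Short.mono {ε ε' : ℝ} {S : Set ℕ} (h : Short ε S) (hε : ε ≤ ε') : Short ε' S := by
  intro κ hκ
  filter_upwards [h κ hκ, eventually_ge_atTop 1] with x hx hx1 H hH1 hH2
  exact hx H ((Real.rpow_le_rpow_of_exponent_le hx1 hε).trans hH1) hH2

theorem Short.meets {ε : ℝ} (hε1 : ε < 1) {S : Set ℕ} (h : Short ε S) : Meets ε S := by
  filter_upwards [h (1 / 2) (by norm_num), eventually_ge_atTop 1] with x hx hx1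
  have h1 := hx (x ^ ε) le_rfl (by
    calc x ^ ε ≤ x ^ (1 : ℝ) := Real.rpow_le_rpow_of_exponent_le hx1 hε1.le
      _ = x := Real.rpow_one x)
  by_contra h2
  have h3 : cn S x (x ^ ε) = 0 := by omega
  rw [h3, Nat.cast_zero, zero_mul, zero_div, zero_sub, abs_neg, abs_one] at h1
  norm_num at h1

/-- The exceptional set. -/
theorem all_nx (J : Jobs) {δ η : ℝ} (hδ : 0 ≤ δ) (hη : 0 < η) (hη1 : η < 1) :
    AllLevel δ (fun S => ∀ κ : ℝ, 0 < κ → ∀ ε : ℝ, 0 < ε → ∀ᶠ k : ℕ in atTop, (nx S η κ k : ℝ) ≤ (2 : ℝ) ^ ((δ + ε) * k)) := by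
  intro Ω _ μ _ A hA hD
  have h1 : ∀ n : ℕ, ∀ᵐ ω ∂μ, ∀ᶠ k : ℕ in atTop, (nx (A ω) η (1 / ((n : ℝ) + 1)) k : ℝ) ≤ (2 : ℝ) ^ ((δ + 1 / ((n : ℝ) + 1)) * k) := by
    intro n
    set ε : ℝ := 1 / ((n : ℝ) + 1) with hε
    have hε0 : 0 < ε := by positivity
    obtain ⟨κ', h2, h3, K, hK⟩ := J.cnt J.det η ε hη hη1 hε0
    -- the number of bad cells
    set m : ℕ → ℕ := fun k => max 1 ⌈(2 : ℝ) ^ ((δ + ε / 2 - η) * k)⌉₊ with hm
    have hs : Summable (fun k : ℕ => ((2 : ℝ) ^ ((δ + ε / 4) * k) + 1) * k / ((2 : ℝ) ^ (η * k) * m k)) := by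
      refine Summable.of_nonneg_of_le (fun k => by positivity) (fun k => ?_)
        ((summable_pow_div (show (0 : ℝ) < ε / 4 by positivity) 1).mul_left 2)
      have hm1 : (2 : ℝ) ^ ((δ + ε / 2 - η) * k) ≤ m k := by
        refine (Nat.le_ceil _).trans ?_
        rw [hm]
        exact_mod_cast le_max_right _ _
      have h4 : (2 : ℝ) ^ ((δ + ε / 2) * k) ≤ (2 : ℝ) ^ (η * k) * m k := by
        calc (2 : ℝ) ^ ((δ + ε / 2) * k) = (2 : ℝ) ^ (η * k) * (2 : ℝ) ^ ((δ + ε / 2 - η) * k) := by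
              rw [← Real.rpow_add (by norm_num)]
              congr 1
              ring
          _ ≤ _ := mul_le_mul_of_nonneg_left hm1 (by positivity)
      have h5 : (1 : ℝ) ≤ (2 : ℝ) ^ ((δ + ε / 4) * k) := Real.one_le_rpow (by norm_num) (by positivity)
      have h6 : (2 : ℝ) ^ ((δ + ε / 2) * k) = (2 : ℝ) ^ ((δ + ε / 4) * k) * (2 : ℝ) ^ (ε / 4 * k) := by
        rw [← Real.rpow_add (by norm_num)]
        congr 1
        ring
      rw [pow_one, ← mul_div_assoc, div_le_div_iff₀ (by positivity) (by positivity)]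
      have hk0 : (0 : ℝ) ≤ k := Nat.cast_nonneg k
      calc ((2 : ℝ) ^ ((δ + ε / 4) * k) + 1) * k * (2 : ℝ) ^ (ε / 4 * k)
          ≤ (2 * (2 : ℝ) ^ ((δ + ε / 4) * k)) * k * (2 : ℝ) ^ (ε / 4 * k) := by
            gcongr
            linarith
        _ = 2 * k * (2 : ℝ) ^ ((δ + ε / 2) * k) := by rw [h6]; ring
        _ ≤ 2 * k * ((2 : ℝ) ^ (η * k) * m k) := mul_le_mul_of_nonneg_left h4 (by positivity)
    have h4 := ae_nbad J hA hη h2 h3 (D := fun k => (2 : ℝ) ^ ((δ + ε / 4) * k)) (fun k => by positivity)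
      (hD (ε / 4) (by positivity)) (m := m) (fun k => le_max_left _ _) hs
    filter_upwards [h4] with ω hω
    obtain ⟨K1, hK1⟩ := eventually_atTop.1 hω
    filter_upwards [eventually_ge_atTop K, eventually_ge_atTop K1,
      ev_pow_le (show (0 : ℝ) < ε / 2 by positivity) 0 (10 * (1 + (2 : ℝ) ^ |δ + ε / 2 - η|))] with k hk1 hk2 hk3
    refine (hK (A ω) k hk1).trans ?_
    -- the bound for `nbad`
    have key : ∀ i, K1 ≤ i → (nbad (A ω) i (gl η κ' i) κ' : ℝ) ≤ (2 : ℝ) ^ ((δ + ε / 2 - η) * i) := by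
      intro i hi
      have h5 := hK1 i hi
      rw [hm] at h5
      simp only at h5
      rcases lt_max_iff.1 h5 with h6 | h6
      · have : nbad (A ω) i (gl η κ' i) κ' = 0 := by omega
        rw [this, Nat.cast_zero]
        positivity
      · exact (Nat.lt_ceil.1 h6).le
    have h5 := key k hk2
    have h6 := key (k + 1) (by omega)
    have h7 : (2 : ℝ) ^ ((δ + ε / 2 - η) * ((k + 1 : ℕ) : ℝ)) ≤ (2 : ℝ) ^ ((δ + ε / 2 - η) * k) * (2 : ℝ) ^ |δ + ε / 2 - η| := by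
      rw [← Real.rpow_add (by norm_num)]
      apply Real.rpow_le_rpow_of_exponent_le (by norm_num)
      push_cast
      nlinarith [le_abs_self (δ + ε / 2 - η)]
    rw [pow_zero, mul_one] at hk3
    have hpos : (0 : ℝ) < (2 : ℝ) ^ ((δ + ε / 2 - η) * k) := by positivity
    calc 10 * (2 : ℝ) ^ (η * k) * ((nbad (A ω) k (gl η κ' k) κ' : ℝ) + nbad (A ω) (k + 1) (gl η κ' (k + 1)) κ')
        ≤ 10 * (2 : ℝ) ^ (η * k) * ((2 : ℝ) ^ ((δ + ε / 2 - η) * k) + (2 : ℝ) ^ ((δ + ε / 2 - η) * k) * (2 : ℝ) ^ |δ + ε / 2 - η|) := by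
          gcongr
          exact h6.trans h7
      _ = (10 * (1 + (2 : ℝ) ^ |δ + ε / 2 - η|)) * ((2 : ℝ) ^ (η * k) * (2 : ℝ) ^ ((δ + ε / 2 - η) * k)) := by ring
      _ ≤ (2 : ℝ) ^ (ε / 2 * k) * ((2 : ℝ) ^ (η * k) * (2 : ℝ) ^ ((δ + ε / 2 - η) * k)) :=
          mul_le_mul_of_nonneg_right hk3 (by positivity)
      _ = (2 : ℝ) ^ ((δ + ε) * k) := by
          rw [← Real.rpow_add (by norm_num), ← Real.rpow_add (by norm_num)]
          congr 1
          ring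
  filter_upwards [ae_all_iff.2 h1] with ω hω κ hκ ε hε
  obtain ⟨n, hn⟩ := exists_nat_one_div_lt (lt_min hκ hε)
  filter_upwards [hω n] with k hk
  have h2 : nx (A ω) η κ k ≤ nx (A ω) η (1 / ((n : ℝ) + 1)) k := by
    classical
    unfold nx
    refine card_le_card (fun a ha => ?_)
    rw [mem_filter] at ha ⊢
    exact ⟨ha.1, (hn.le.trans (min_le_left _ _)).trans_lt ha.2⟩
  have h3 : (nx (A ω) η κ k : ℝ) ≤ nx (A ω) η (1 / ((n : ℝ) + 1)) k := by exact_mod_cast h2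
  refine h3.trans (hk.trans ?_)
  apply Real.rpow_le_rpow_of_exponent_le (by norm_num)
  have : (0 : ℝ) ≤ k := Nat.cast_nonneg k
  have h4 : 1 / ((n : ℝ) + 1) ≤ ε := hn.le.trans (min_le_right _ _)
  nlinarith

end Pool.Agent.Q120.SI
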